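import Mathlib.Analysis.SpecialFunctions.Trigonometric.Bounds
import Mathlib.Analysis.Real.Pi.Bounds

/-!
Lower bounds for the cotangent and the constants of the case of 32 vertices.
-/

namespace Pool.Agent.MP_2ab689_gt.T32

open Real

theorem step {f g : ℝ → ℝ} (hd : ∀ x, HasDerivAt f (g x) x) (h0 : f 0 = 0)
    (hg : ∀ x, 0 ≤ x → 0 ≤ g x) {x : ℝ} (hx : 0 ≤ x) : 0 ≤ f x := by
  have := monotoneOn_of_deriv_nonneg (convex_Ici (0 : ℝ)) (f := f)
    (fun y _ => (hd y).continuousAt.continuousWithinAt)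
    (fun y _ => (hd y).differentiableAt.differentiableWithinAt)
    (fun y hy => by rw [(hd y).deriv]; exact hg y (interior_subset hy))
  exact h0 ▸ this Set.self_mem_Ici hx hx

theorem cos_le4 {x : ℝ} (hx : 0 ≤ x) : cos x ≤ 1 - x ^ 2 / 2 + x ^ 4 / 24 := by
  have := step (f := fun x => 1 - x ^ 2 / 2 + x ^ 4 / 24 - cos x)
    (g := fun x => sin x - (x - x ^ 3 / 6)) (fun y =>
      ((((hasDerivAt_const y (1 : ℝ)).sub ((hasDerivAt_pow 2 y).div_const 2)).add
        ((hasDerivAt_pow 4 y).div_const 24)).sub (hasDerivAt_cos y)).congr_deriv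
        (by push_cast; ring)) (by simp) (fun y hy => sub_nonneg.mpr (sin_ge_sub_cube hy)) hx
  linarith

theorem sin_le5 {x : ℝ} (hx : 0 ≤ x) : sin x ≤ x - x ^ 3 / 6 + x ^ 5 / 120 := by
  have := step (f := fun x => x - x ^ 3 / 6 + x ^ 5 / 120 - sin x)
    (g := fun x => 1 - x ^ 2 / 2 + x ^ 4 / 24 - cos x) (fun y =>
      ((((hasDerivAt_id' y).sub ((hasDerivAt_pow 3 y).div_const 6)).add
        ((hasDerivAt_pow 5 y).div_const 120)).sub (hasDerivAt_sin y)).congr_deriv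
        (by push_cast; ring)) (by simp) (fun y hy => sub_nonneg.mpr (cos_le4 hy)) hx
  linarith

theorem cos_ge6 {x : ℝ} (hx : 0 ≤ x) : 1 - x ^ 2 / 2 + x ^ 4 / 24 - x ^ 6 / 720 ≤ cos x := by
  have := step (f := fun x => cos x - (1 - x ^ 2 / 2 + x ^ 4 / 24 - x ^ 6 / 720))
    (g := fun x => x - x ^ 3 / 6 + x ^ 5 / 120 - sin x) (fun y =>
      ((hasDerivAt_cos y).sub ((((hasDerivAt_const y (1 : ℝ)).sub
        ((hasDerivAt_pow 2 y).div_const 2)).add ((hasDerivAt_pow 4 y).div_const 24)).sub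
        ((hasDerivAt_pow 6 y).div_const 720))).congr_deriv (by push_cast; ring)) (by simp) (fun y hy => sub_nonneg.mpr (sin_le5 hy)) hx
  linarith

theorem cot_ge {x : ℝ} (h0 : 0 < x) (h1 : x ≤ 6 / 5) : 1 / x - x / 3 - x ^ 3 / 35 ≤ cot x := by
  have hs : 0 < sin x := sin_pos_of_pos_of_lt_pi h0 (by linarith [pi_gt_three])
  have hy : x ^ 2 ≤ 36 / 25 := by nlinarith
  have hy0 : 0 < x ^ 2 := by positivity
  have e : 1 / x - x / 3 - x ^ 3 / 35 = (1 - x ^ 2 / 3 - x ^ 4 / 35) / x := by field_simp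
  rw [e, cot_eq_cos_div_sin, div_le_div_iff₀ h0 hs]
  have h2 : 0 ≤ 1 - x ^ 2 / 3 - x ^ 4 / 35 := by nlinarith
  refine (mul_le_mul_of_nonneg_left (sin_le5 h0.le) h2).trans
    (le_trans ?_ (mul_le_mul_of_nonneg_right (cos_ge6 h0.le) h0.le))
  have h3 : 0 ≤ x ^ 5 * (2 / 315 - 17 / 5040 * x ^ 2 + x ^ 4 / 4200) :=
    mul_nonneg (by positivity) (by nlinarith)
  nlinarith

theorem cot_ge' {x : ℝ} (h0 : 0 < x) (h1 : x ≤ 6 / 5) : 1 / x - 3 / 8 * x ≤ cot x := by
  have := cot_ge h0 h1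
  have hy : x ^ 2 ≤ 36 / 25 := by nlinarith
  nlinarith

theorem cot_ge'' {x : ℝ} (h0 : 0 < x) (h1 : x ≤ 9 / 25) : 1 / x - 17 / 50 * x ≤ cot x := by
  have := cot_ge h0 (by linarith)
  have hy : x ^ 2 ≤ 81 / 625 := by nlinarith
  nlinarith

theorem cot_le {x : ℝ} (h0 : 0 < x) (h1 : x < π / 2) : cot x ≤ 1 / x := by
  have h := lt_tan h0 h1
  rw [← tan_inv_eq_cot, one_div]
  exact inv_anti₀ h0 h.le

theorem cot_add {a b : ℝ} (ha : 0 < a) (hb : 0 < b) (h : a + b < π) :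
    0 < cot a + cot b ∧ cot (a + b) * (cot a + cot b) = cot a * cot b - 1 := by
  have s1 : 0 < sin a := sin_pos_of_pos_of_lt_pi ha (by linarith)
  have s2 : 0 < sin b := sin_pos_of_pos_of_lt_pi hb (by linarith)
  have s3 : 0 < sin (a + b) := sin_pos_of_pos_of_lt_pi (by linarith) h
  have e : cot a + cot b = sin (a + b) / (sin a * sin b) := by
    rw [cot_eq_cos_div_sin, cot_eq_cos_div_sin, sin_add]; field_simp; ring
  refine ⟨e ▸ by positivity, ?_⟩
  rw [e, cot_eq_cos_div_sin, cot_eq_cos_div_sin, cot_eq_cos_div_sin, cos_add]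
  field_simp

theorem cot_up {b δ : ℝ} (hb : 0 < b) (h0 : 0 < δ) (h1 : δ ≤ 6 / 5) (h : b + δ < π)
    (hc : 0 ≤ cot b - 3 / 8 * δ) :
    cot b - (1 + cot b ^ 2) * (δ / (1 + (cot b - 3 / 8 * δ) * δ)) ≤ cot (b + δ) := by
  obtain ⟨p, e⟩ := cot_add hb h0 h
  have h2 := cot_ge' h0 h1
  have e2 : cot (b + δ) = cot b - (1 + cot b ^ 2) * (1 / (cot b + cot δ)) := by
    field_simp
    linear_combination e
  have h3 : 1 / (cot b + cot δ) ≤ δ / (1 + (cot b - 3 / 8 * δ) * δ) := by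
    rw [div_le_div_iff₀ p (by positivity)]
    have := mul_le_mul_of_nonneg_left h2 h0.le
    rw [mul_sub, mul_one_div_cancel h0.ne'] at this
    nlinarith
  rw [e2]
  have := mul_le_mul_of_nonneg_left h3 (by positivity : 0 ≤ 1 + cot b ^ 2)
  linarith

theorem cot_dn {β δ : ℝ} (hb : 0 < β) (h0 : 0 < δ) (h : β + δ ≤ π / 2) :
    0 < 1 - cot (β + δ) * δ ∧
      cot (β + δ) + (1 + cot (β + δ) ^ 2) * (δ / (1 - cot (β + δ) * δ)) ≤ cot β := by
  obtain ⟨p, e⟩ := cot_add hb h0 (by linarith [pi_pos])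
  have h2 := cot_le h0 (by linarith)
  have h4 : 0 < cot β := by
    rw [cot_eq_cos_div_sin]
    exact div_pos (cos_pos_of_mem_Ioo ⟨by linarith [pi_pos], by linarith⟩)
      (sin_pos_of_pos_of_lt_pi hb (by linarith [pi_pos]))
  set c := cot (β + δ)
  have h5 : (cot β - c) * (cot δ - c) = 1 + c ^ 2 := by linear_combination -e
  have h6 : 0 < cot δ - c := by
    by_contra hn
    have h7 : cot β - c < 0 := by
      by_contra h8
      nlinarith [mul_nonneg (not_lt.mp h8) (neg_nonneg.mpr (not_lt.mp hn))]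
    have h9 : 0 < cot δ := by
      rw [cot_eq_cos_div_sin]
      exact div_pos (cos_pos_of_mem_Ioo ⟨by linarith [pi_pos], by linarith⟩)
        (sin_pos_of_pos_of_lt_pi h0 (by linarith [pi_pos]))
    nlinarith
  have h7 : (cot δ - c) * δ ≤ 1 - c * δ := by
    have := mul_le_mul_of_nonneg_right h2 h0.le
    rw [one_div_mul_cancel h0.ne'] at this
    linarith
  have h8 : 0 < 1 - c * δ := (mul_pos h6 h0).trans_le h7
  refine ⟨h8, ?_⟩
  have h9 : 0 < cot β - c := by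
    by_contra hn
    nlinarith [mul_nonneg (neg_nonneg.mpr (not_lt.mp hn)) h6.le]
  rw [← le_sub_iff_add_le', ← mul_div_assoc, div_le_iff₀ h8, ← h5, mul_assoc]
  exact mul_le_mul_of_nonneg_left h7 h9.le

end Pool.Agent.MP_2ab689_gt.T32
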