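import Pool.Agent.MP_2ab689_gt.T32.Std
import Pool.Agent.MP_2ab689_gt.Big.Final
import Pool.Agent.MP_2ab689_gt.Big.Exv

/-!
The maximum volume polytope with 32 vertices.
-/

namespace Pool.Agent.MP_2ab689_gt.T32

open Real Big MeasureTheory Set WithLp

theorem frame {a b c A B C : V} (h1 : ip A A = ip a a) (h2 : ip B B = ip b b)
    (h3 : ip C C = ip c c) (h4 : ip A B = ip a b) (h5 : ip B C = ip b c) (h6 : ip C A = ip c a)
    (hd : det3 A B C = det3 a b c) (h0 : det3 a b c ≠ 0) :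
    ∃ e f g : V, ip e e = 1 ∧ ip f f = 1 ∧ ip g g = 1 ∧ ip e f = 0 ∧ ip f g = 0 ∧ ip e g = 0 ∧
      det3 e f g = 1 ∧ A = a 0 • e + a 1 • f + a 2 • g ∧ B = b 0 • e + b 1 • f + b 2 • g ∧
      C = c 0 • e + c 1 • f + c 2 • g := by
  let m : Matrix (Fin 3) (Fin 3) ℝ := Matrix.of ![a, b, c]
  let n : Matrix (Fin 3) (Fin 3) ℝ := Matrix.of ![A, B, C]
  have dt : ∀ x : Matrix (Fin 3) (Fin 3) ℝ, x.det = det3 (x 0) (x 1) (x 2) := fun x => by
    rw [Matrix.det_fin_three, det3]; ring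
  have hm : IsUnit m.det := by rw [dt]; exact h0.isUnit
  have e1 : n * n.transpose = m * m.transpose := by
    unfold ip at *
    ext i j
    fin_cases i <;> fin_cases j <;> simp [m, n, Matrix.mul_apply, Fin.sum_univ_three] <;> linarith
  obtain ⟨R, hR⟩ : ∃ R, R = m⁻¹ * n := ⟨_, rfl⟩
  have e2 : m * R = n := by rw [hR, Matrix.mul_nonsing_inv_cancel_left _ _ hm]
  have e3 : R * R.transpose = 1 := by
    rw [hR, Matrix.transpose_mul, ← Matrix.mul_assoc, Matrix.mul_assoc m⁻¹, e1,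
      Matrix.nonsing_inv_mul_cancel_left _ _ hm, ← Matrix.transpose_mul,
      Matrix.nonsing_inv_mul _ hm, Matrix.transpose_one]
  have e4 : R.det = 1 := by
    have := congrArg Matrix.det e2
    rw [Matrix.det_mul, dt n, dt m] at this
    exact mul_left_cancel₀ h0 (this.trans (hd.trans (mul_one _).symm))
  have k : ∀ i j, ip (R i) (R j) = (1 : Matrix (Fin 3) (Fin 3) ℝ) i j := fun i j => by
    rw [← e3]; simp [ip, Matrix.mul_apply, Fin.sum_univ_three]
  have k2 : ∀ i, n i = m i 0 • R 0 + m i 1 • R 1 + m i 2 • R 2 := fun i => by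
    funext j
    rw [← e2]; simp [Matrix.mul_apply, Fin.sum_univ_three]
  exact ⟨R 0, R 1, R 2, by simp [k], by simp [k], by simp [k], by simp [k], by simp [k],
    by simp [k], (dt R).symm.trans e4, k2 0, k2 1, k2 2⟩

theorem tab_chain : ∀ n : Fin 60, n = 0 ∨ ∃ m < n, (fc n).2.1 = (fc m).2.2 ∧
    ((fc n).1 = (fc m).1 ∨ (fc n).2.2 = (fc m).2.1) := by
  decide +kernel

theorem tab_cover : ∀ i : Fin 32, ∃ n, i = (fc n).1 ∨ i = (fc n).2.1 := by
  decide +kernel

theorem tab_sep : ∀ a b : Fin 32, a ≠ b → ∃ n, (a = (fc n).1 ∨ a = (fc n).2.1) ∧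
    b ≠ (fc n).1 ∧ b ≠ (fc n).2.1 ∧ b ≠ (fc n).2.2 := by
  decide +kernel

theorem inj32 : Function.Injective q32 := by
  intro a b e
  by_contra hne
  obtain ⟨n, h1, h2⟩ := tab_sep a b hne
  have := (face32 n).2.2.2 b h2.1 h2.2.1 h2.2.2
  rw [posq, ← e] at this
  rcases h1 with rfl | rfl
  · rw [T4_self1] at this; exact lt_irrefl _ this
  · rw [T4_self2] at this; exact lt_irrefl _ this

theorem rigid {Φ : Type} [Fintype Φ] (M : Mesh (Fin 32) Φ) {τ : Fin 32 → Bool}
    (hM : ∀ d, Std M τ d ∨ Std M τ (M.φ d) ∨ Std M τ (M.φ (M.φ d))) :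
    ∃ e f g : V, ip e e = 1 ∧ ip f f = 1 ∧ ip g g = 1 ∧ ip e f = 0 ∧ ip f g = 0 ∧ ip e g = 0 ∧
      range M.p = range fun i => q32 i 0 • e + q32 i 1 • f + q32 i 2 • g := by
  classical
  obtain ⟨d, hd⟩ : ∃ d, Std M τ d := by
    obtain ⟨d, -⟩ := M.exists_flag 0
    rcases hM d with h | h | h <;> exact ⟨_, h⟩
  obtain ⟨s1, s2, s3, s4⟩ := shape32 0
  obtain ⟨e, f, g, k1, k2, k3, k4, k5, k6, k7, eA, eB, eC⟩ := frame ((M.uA d).trans (unit32 _).symm)
    ((M.uB d).trans (unit32 _).symm) ((M.uC d).trans (unit32 _).symm)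
    (hd.2.2.2.1.trans s1.symm) (hd.2.2.2.2.1.trans s2.symm) (hd.2.2.2.2.2.1.trans s3.symm)
    (hd.2.2.2.2.2.2.trans s4.symm) (s4 ▸ X0_ne)
  refine ⟨e, f, g, k1, k2, k3, k4, k5, k6, ?_⟩
  obtain ⟨T, hT⟩ : ∃ T : V → V, ∀ x, T x = x 0 • e + x 1 • f + x 2 • g := ⟨_, fun _ => rfl⟩
  have Tip : ∀ x y, ip (T x) (T y) = ip x y := fun x y => by
    simp only [hT, ip_add_left, ip_add_right, ip_smul_left, ip_smul_right, k1, k2, k3, k4, k5, k6,
      ip_comm f e, ip_comm g f, ip_comm g e]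
    unfold ip; ring
  have Tdet : ∀ x y z, det3 (T x) (T y) (T z) = det3 x y z := fun x y z => by
    rw [← mul_one (det3 x y z), ← k7]
    simp only [hT, det3, Pi.add_apply, Pi.smul_apply, smul_eq_mul]
    ring
  have hS : ∀ n, Shape (T (q32 (fc n).1)) (T (q32 (fc n).2.1)) (T (q32 (fc n).2.2)) := fun n => by
    simpa only [Shape, Tip, Tdet] using shape32 n
  have hO : ∀ n, Occ M τ (T (q32 (fc n).1)) (T (q32 (fc n).2.1)) (T (q32 (fc n).2.2)) := by
    intro n
    induction n using WellFoundedLT.induction with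
    | ind n ih =>
      rcases tab_chain n with rfl | ⟨m, hm, h1, h2 | h2⟩
      · exact ⟨d, hd, by rw [hT, eA], by rw [hT, eB], by rw [hT, eC]⟩
      · have := hS n
        rw [h1, h2] at this ⊢
        exact occ_rot hM (ih m hm) this
      · have := hS n
        rw [h1, h2] at this ⊢
        exact occ_flip hM (ih m hm) this
  have sub : (range fun i => T (q32 i)) ⊆ range M.p := by
    rintro _ ⟨i, rfl⟩
    obtain ⟨n, rfl | rfl⟩ := tab_cover i
    · obtain ⟨d, -, h, -⟩ := hO n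
      exact ⟨_, h⟩
    · obtain ⟨d, -, -, h, -⟩ := hO n
      exact ⟨_, h⟩
  have inj : Function.Injective fun i => T (q32 i) := fun i j h => by
    by_contra hne
    have := ip_lt_one (unit32 i) (unit32 j) (inj32.ne hne)
    rw [← Tip, show T (q32 i) = T (q32 j) from h, Tip, unit32] at this
    exact lt_irrefl _ this
  simp only [← hT]
  refine (Set.eq_of_subset_of_ncard_le sub ?_ (finite_range _)).symm
  rw [Set.ncard_range_of_injective inj, Set.ncard_range_of_injective M.inj]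

theorem upper32 (p : Fin 32 → V) (hi : Function.Injective p) (hu : ∀ i, ip (p i) (p i) = 1) :
    (volume (convexHull ℝ (range p))).toReal ≤ 40 / X0 ∧
    (40 / X0 ≤ (volume (convexHull ℝ (range p))).toReal →
      ∃ e f g : V, ip e e = 1 ∧ ip f f = 1 ∧ ip g g = 1 ∧ ip e f = 0 ∧ ip f g = 0 ∧ ip e g = 0 ∧
      range p = range fun i => q32 i 0 • e + q32 i 1 • f + q32 i 2 • g) := by
  by_cases h0 : 0 ∈ interior (convexHull ℝ (range ((toLp 2 : V → E3) ∘ p)))
  · obtain ⟨Φ, _, M, rfl⟩ := exists_mesh (by norm_num) p hu hi ((ball_iff p).mp h0)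
    obtain ⟨h1, h2⟩ := glob M (Fintype.card_fin 32)
    exact ⟨h1, fun h => let ⟨_, k⟩ := h2 h; rigid M k⟩
  · have := Exv.half (convex_convexHull ℝ _) (convexHull_min (by
      rintro _ ⟨i, rfl⟩
      exact mem_closedBall_zero_iff.mpr ((norm_eq_one_iff _).mpr (hu i)).le)
      (convex_closedBall 0 1)) h0
    rw [vol_toLp] at this
    have h1 := ENNReal.toReal_le_of_le_ofReal (by positivity) this
    have h2 : 3 < 40 / X0 := by rw [lt_div_iff₀ (by linarith [X0_b.1])]; linarith [X0_b.2.1]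
    exact ⟨by linarith [pi_lt_four], fun h => by linarith [pi_lt_four]⟩

theorem mid (i j : Fin 32) : (1 / 2 : ℝ) • q32 i + (1 / 2 : ℝ) • q32 j ∈
    convexHull ℝ (range q32) :=
  convex_convexHull ℝ _ (subset_convexHull _ _ (mem_range_self i))
    (subset_convexHull _ _ (mem_range_self j)) (by norm_num) (by norm_num) (by norm_num)

theorem interior32 : 0 ∈ interior (convexHull ℝ (range ((toLp 2 : V → E3) ∘ q32))) := by
  have key : ∀ (i j : Fin 32) (k : Fin 3) (x : ℝ),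
      (1 / 2 : ℝ) • q32 i + (1 / 2 : ℝ) • q32 j = Pi.single k x →
      EuclideanSpace.single k x ∈ convexHull ℝ (range ((toLp 2 : V → E3) ∘ q32)) :=
    fun i j k x h => (Exv.mem_toLp q32 (Pi.single k x)).mpr (h ▸ mid i j)
  refine zero_mem_interior (convex_convexHull ℝ _) (ε := al * (1 + √5))
    (mul_pos al_pos (by positivity)) fun i => ?_
  fin_cases i
  · refine ⟨key 8 9 _ _ ?_, key 10 11 _ _ ?_⟩ <;> funext j <;> fin_cases j <;>
      simp [q32, ut, tab, sc, ev_eq] <;> ring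
  · refine ⟨key 4 6 _ _ ?_, key 5 7 _ _ ?_⟩ <;> funext j <;> fin_cases j <;>
      simp [q32, ut, tab, sc, ev_eq] <;> ring
  · refine ⟨key 0 2 _ _ ?_, key 1 3 _ _ ?_⟩ <;> funext j <;> fin_cases j <;>
      simp [q32, ut, tab, sc, ev_eq] <;> ring

theorem tab_ne : ∀ n m : Fin 60, fc n ≠ fc m → ∃ l, (l = (fc m).1 ∨ l = (fc m).2.1 ∨
    l = (fc m).2.2) ∧ l ≠ (fc n).1 ∧ l ≠ (fc n).2.1 ∧ l ≠ (fc n).2.2 := by
  simp only [or_and_right, exists_or, exists_eq_left]
  decide +kernel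

theorem tab_inj : Function.Injective fc := by decide +kernel

theorem lower32 : ENNReal.ofReal (40 / X0) ≤ volume (convexHull ℝ (range q32)) := by
  have z : (0 : V) ∈ convexHull ℝ (range q32) := by
    convert mid 0 3 using 1
    funext j
    fin_cases j <;> simp [q32, ut, tab, sc, ev_eq]
    ring
  have := vol_ge_of_faces q32 _ (convex_convexHull ℝ _) z
    (fun i => subset_convexHull _ _ (mem_range_self i)) (Finset.univ.image fc)
    (by simpa using face32)
    (by simpa using fun n => (shape32 n).2.2.2 ▸ div_pos four_pos (by linarith [X0_b.1]))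
    (fun f hf f' hf' => by
      obtain ⟨n, -, rfl⟩ := Finset.mem_image.mp hf
      obtain ⟨m, -, rfl⟩ := Finset.mem_image.mp hf'
      exact tab_ne n m)
  rw [Finset.sum_image fun _ _ _ _ h => tab_inj h,
    Finset.sum_congr rfl fun n _ => (shape32 n).2.2.2] at this
  refine le_of_eq_of_le ?_ this
  congr 1
  simp
  ring

theorem value : 40 / X0 = 2 / 3 * √(50 - 10 * √5) := by
  have hX : 0 < X0 := by linarith [X0_b.1]
  have h : (3 : ℝ) - √5 ≠ 0 := by linarith [s5_b.2]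
  have : √(50 - 10 * √5) = 60 / X0 := by
    rw [Real.sqrt_eq_iff_mul_self_eq (by linarith [s5_b.2]) (by positivity), div_mul_div_comm,
      eq_div_iff (by positivity)]
    refine mul_right_cancel₀ (pow_ne_zero 2 h) ?_
    linear_combination (50 - 10 * √5) * (X0 * (3 - √5) + 12 * c2) * X0_eq.1
      + 144 * (50 - 10 * √5) * c2_sq.2 - 720 * s5_sq
  rw [this]; ring

theorem main32 : (∀ P, IsMaxVol 32 P ↔
      ∃ φ : E3 ≃ₗᵢ[ℝ] E3, P = φ '' convexHull ℝ (range ((toLp 2 : V → E3) ∘ q32))) ∧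
    volume (convexHull ℝ (range ((toLp 2 : V → E3) ∘ q32))) =
      ENNReal.ofReal (2 / 3 * √(50 - 10 * √5)) :=
  value ▸ isMaxVol_iff q32 unit32 inj32 interior32 (by rw [value]; positivity) lower32 upper32

end Pool.Agent.MP_2ab689_gt.T32
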