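import Pool.Agent.MP_2ab689_gt.T32.Trig

/-!
The constants of the case of 32 vertices.
-/

namespace Pool.Agent.MP_2ab689_gt.T32

open Real

/-- The cotangent of 6 degrees. -/
noncomputable def c0 : ℝ := cot (π / 30)
/-- The cotangent of 66 degrees. -/
noncomputable def c1 : ℝ := cot (11 * π / 30)
/-- The cotangent of 54 degrees. -/
noncomputable def c2 : ℝ := cot (3 * π / 10)
/-- The sum of the cotangents in the extremal face. -/
noncomputable def X0 : ℝ := c0 + c1 + 2 * c2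
/-- The multiplier at vertices of degree at most five. -/
noncomputable def l5 : ℝ := (c0 ^ 2 + c1 ^ 2) / 2 - c2 ^ 2
/-- The multiplier at vertices of degree at least six. -/
noncomputable def l6 : ℝ := (c0 ^ 2 - c1 ^ 2) / 2
/-- The score of an angle. -/
noncomputable def H : Bool → ℝ → ℝ
  | true, θ => l5 * (θ - 2 * π / 5) + (X0 - 1.326)
  | false, θ => l6 * (θ - π / 3) + 0.663

theorem s3_b : 1.732050807 < √3 ∧ √3 < 1.732050808 :=
  ⟨Real.lt_sqrt_of_sq_lt (by norm_num), (Real.sqrt_lt' (by norm_num)).mpr (by norm_num)⟩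

theorem s5_b : 2.236067977 < √5 ∧ √5 < 2.236067978 :=
  ⟨Real.lt_sqrt_of_sq_lt (by norm_num), (Real.sqrt_lt' (by norm_num)).mpr (by norm_num)⟩

theorem s3_sq : √3 ^ 2 = 3 := Real.sq_sqrt (by norm_num)
theorem s5_sq : √5 ^ 2 = 5 := Real.sq_sqrt (by norm_num)

theorem cot60 : cot (π / 3) = √3 / 3 := by
  rw [cot_eq_cos_div_sin, cos_pi_div_three, sin_pi_div_three]
  have := s3_b.1
  field_simp
  linarith [s3_sq]

theorem cot_pi_sub (x : ℝ) : cot (π - x) = -cot x := by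
  rw [cot_eq_cos_div_sin, cot_eq_cos_div_sin, cos_pi_sub, sin_pi_sub, neg_div]

theorem c2_sq : 0 < c2 ∧ c2 ^ 2 = 5 - 2 * √5 := by
  have e : 3 * π / 10 = π / 2 - π / 5 := by ring
  have hs : sin (3 * π / 10) = (1 + √5) / 4 := by rw [e, sin_pi_div_two_sub, cos_pi_div_five]
  have h5 := s5_b.1
  have hc := cos_sq' (3 * π / 10)
  refine ⟨?_, ?_⟩
  · rw [c2, cot_eq_cos_div_sin, hs]
    exact div_pos (cos_pos_of_mem_Ioo ⟨by linarith [pi_pos], by linarith [pi_pos]⟩) (by positivity)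
  · rw [c2, cot_eq_cos_div_sin, div_pow, hc, hs, div_eq_iff (by positivity)]
    linear_combination ((√5 - 1) / 8) * s5_sq

theorem c0_eq : c0 * (√3 * c2 - 1) = c2 + √3 := by
  have := (cot_add (a := π / 30) (b := 3 * π / 10) (by positivity) (by positivity)
    (by linarith [pi_pos])).2
  rw [show π / 30 + 3 * π / 10 = π / 3 by ring, cot60] at this
  unfold c0 c2
  linear_combination (-√3) * this + (cot (π / 30) + cot (3 * π / 10)) / 3 * s3_sq

theorem c1_eq : c1 * (√3 * c2 + 1) = √3 - c2 := by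
  have := (cot_add (a := 11 * π / 30) (b := 3 * π / 10) (by positivity) (by positivity)
    (by linarith [pi_pos])).2
  rw [show 11 * π / 30 + 3 * π / 10 = π - π / 3 by ring, cot_pi_sub, cot60] at this
  unfold c1 c2
  linear_combination (-√3) * this - (cot (11 * π / 30) + cot (3 * π / 10)) / 3 * s3_sq

theorem c2_b : 0.726542527 < c2 ∧ c2 < 0.726542529 := by
  obtain ⟨h0, h1⟩ := c2_sq
  obtain ⟨h2, h3⟩ := s5_b
  exact ⟨lt_of_pow_lt_pow_left₀ 2 h0.le (by rw [h1]; linarith),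
    lt_of_pow_lt_pow_left₀ 2 (by norm_num) (by rw [h1]; linarith)⟩

theorem c01_b : 9.51436 < c0 ∧ c0 < 9.51437 ∧ 0.445228 < c1 ∧ c1 < 0.445229 := by
  obtain ⟨a1, a2⟩ := c2_b
  obtain ⟨b1, b2⟩ := s3_b
  have m1 : 1.25840857 < √3 * c2 := by nlinarith
  have m2 : √3 * c2 < 1.258408576 := by nlinarith
  have e0 : c0 = (c2 + √3) / (√3 * c2 - 1) := eq_div_of_mul_eq (by linarith) c0_eq
  have e1 : c1 = (√3 - c2) / (√3 * c2 + 1) := eq_div_of_mul_eq (by linarith) c1_eq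
  rw [e0, e1, lt_div_iff₀ (by linarith), div_lt_iff₀ (by linarith), lt_div_iff₀ (by linarith),
    div_lt_iff₀ (by linarith)]
  refine ⟨by linarith, by linarith, by linarith, by linarith⟩

theorem sq_b : 90.523 < c0 ^ 2 ∧ c0 ^ 2 < 90.5233 ∧ 0.198227 < c1 ^ 2 ∧ c1 ^ 2 < 0.198229 ∧
    0.527864 < c2 ^ 2 ∧ c2 ^ 2 < 0.527865 := by
  obtain ⟨a1, a2, a3, a4⟩ := c01_b
  obtain ⟨b1, b2⟩ := s5_b
  rw [c2_sq.2]
  refine ⟨by nlinarith, by nlinarith, by nlinarith, by nlinarith, by linarith, by linarith⟩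

theorem X0_b : 11.41267 < X0 ∧ X0 < 11.41269 ∧ X0 ^ 2 < 130.2495 := by
  obtain ⟨a1, a2, a3, a4⟩ := c01_b
  obtain ⟨b1, b2⟩ := c2_b
  have h1 : 11.41267 < X0 := by unfold X0; linarith
  have h2 : X0 < 11.41269 := by unfold X0; linarith
  exact ⟨h1, h2, by nlinarith⟩

theorem l_b : 44.8327 < l5 ∧ l5 < 44.833 ∧ 45.1623 < l6 ∧ l6 < 45.1626 ∧
    140.846 < l5 * π ∧ l5 * π < 140.8471 ∧ 141.8815 < l6 * π ∧ l6 * π < 141.8826 := by
  obtain ⟨a1, a2, a3, a4, a5, a6⟩ := sq_b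
  have h1 : 44.8327 < l5 := by unfold l5; linarith
  have h2 : l5 < 44.833 := by unfold l5; linarith
  have h3 : 45.1623 < l6 := by unfold l6; linarith
  have h4 : l6 < 45.1626 := by unfold l6; linarith
  have p1 := pi_gt_d6
  have p2 := pi_lt_d6
  exact ⟨h1, h2, h3, h4, by nlinarith, by nlinarith, by nlinarith, by nlinarith⟩

/-- A parabola below the cotangent. -/
theorem tang {b β k : ℝ} (hb : 0 < b) (hb2 : b ≤ π / 2) (h0 : 0 < β) (h1 : β < π)
    (h2 : β - b ≤ 6 / 5) (k0 : 0 ≤ k) (k1 : k ≤ cot b)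
    (k2 : 0 < β - b → 0 ≤ cot b - 3 / 8 * (β - b) ∧
      k ≤ (cot b - 3 / 8 * (β - b)) * (1 - k * (β - b))) :
    cot b - (1 + cot b ^ 2) * ((β - b) - k * (β - b) ^ 2) ≤ cot β := by
  have q0 : 0 ≤ 1 + cot b ^ 2 := by positivity
  rcases lt_trichotomy (β - b) 0 with h | h | h
  · obtain ⟨a1, a2⟩ := cot_dn (δ := b - β) h0 (by linarith) (by linarith)
    rw [add_sub_cancel] at a1 a2
    have : (b - β) + k * (b - β) ^ 2 ≤ (b - β) / (1 - cot b * (b - β)) := by
      rw [le_div_iff₀ a1]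
      have := mul_nonneg (sub_nonneg.mpr k1) (sq_nonneg (b - β))
      have := mul_nonneg (mul_nonneg k0 (k0.trans k1)) (pow_nonneg (by linarith : 0 ≤ b - β) 3)
      nlinarith
    nlinarith [mul_le_mul_of_nonneg_left this q0]
  · rw [h, show β = b by linarith]; simp
  · obtain ⟨a1, a2⟩ := k2 h
    have a3 := cot_up hb h h2 (by linarith) a1
    rw [add_sub_cancel] at a3
    have : (β - b) / (1 + (cot b - 3 / 8 * (β - b)) * (β - b)) ≤ (β - b) - k * (β - b) ^ 2 := by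
      rw [div_le_iff₀ (by positivity)]
      nlinarith [mul_le_mul_of_nonneg_left a2 (sq_nonneg (β - b))]
    nlinarith [mul_le_mul_of_nonneg_left this q0]

theorem t60 {β : ℝ} (h0 : 0 < β) (h1 : β ≤ 2 * π / 3) :
    0.57735 - 4 / 3 * (β - π / 3) ≤ cot β := by
  have p2 := pi_lt_d6
  have p1 := pi_gt_d6
  obtain ⟨b1, b2⟩ := s3_b
  have := tang (b := π / 3) (k := 0) (by positivity) (by linarith) h0 (by linarith) (by linarith)
    le_rfl (by rw [cot60]; positivity) (fun _ => by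
      rw [cot60]; exact ⟨by linarith, by linarith⟩)
  rw [cot60, div_pow, s3_sq] at this
  linarith

theorem t54 {β : ℝ} (h0 : 0 < β) (h1 : β ≤ 2 * π / 3) :
    c2 - (1 + c2 ^ 2) * (β - 3 * π / 10) + (β - 3 * π / 10) ^ 2 / 16 ≤ cot β := by
  have p2 := pi_lt_d6
  have p1 := pi_gt_d6
  obtain ⟨b1, b2⟩ := c2_b
  have := tang (b := 3 * π / 10) (k := 1 / 16) (by positivity) (by linarith) h0 (by linarith)
    (by linarith) (by norm_num) (by rw [← c2]; linarith) (fun _ => by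
      rw [← c2]; exact ⟨by linarith, by nlinarith⟩)
  rw [← c2] at this
  nlinarith [mul_nonneg (sq_nonneg c2) (sq_nonneg (β - 3 * π / 10))]

theorem t54' {β : ℝ} (h0 : 0 < β) (h1 : β ≤ 3 * π / 10) :
    c2 - (1 + c2 ^ 2) * (β - 3 * π / 10) + (β - 3 * π / 10) ^ 2 ≤ cot β := by
  have p1 := pi_gt_d6
  obtain ⟨b1, b2⟩ := c2_b
  have := tang (b := 3 * π / 10) (k := 7 / 10) (by positivity) (by linarith) h0 (by linarith)
    (by linarith) (by norm_num) (by rw [← c2]; linarith) (fun _ => by linarith)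
  rw [← c2] at this
  nlinarith [mul_nonneg (sub_nonneg.mpr sq_b.2.2.2.2.1.le) (sq_nonneg (β - 3 * π / 10))]

theorem t66 {β : ℝ} (h0 : 0 < β) (h1 : β ≤ 2 * π / 3) :
    c1 - (1 + c1 ^ 2) * (β - 11 * π / 30) + 0.083 * (β - 11 * π / 30) ^ 2 ≤ cot β := by
  have p2 := pi_lt_d6
  have p1 := pi_gt_d6
  obtain ⟨-, -, b1, b2⟩ := c01_b
  have := tang (b := 11 * π / 30) (k := 7 / 100) (by positivity) (by linarith) h0 (by linarith)
    (by linarith) (by norm_num) (by rw [← c1]; linarith) (fun _ => by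
      rw [← c1]; exact ⟨by linarith, by nlinarith⟩)
  rw [← c1] at this
  nlinarith [mul_nonneg (sub_nonneg.mpr sq_b.2.2.1.le) (sq_nonneg (β - 11 * π / 30))]

theorem t6 {e : ℝ} (h0 : 0 < e) (h1 : e ≤ 9 / 25) : ∃ r : ℝ,
    c0 - (1 + c0 ^ 2) * (e - π / 30) + r + 3 * (e - π / 30) ^ 2 ≤ cot e ∧
    0 < 9.6 + (c0 ^ 2 - c2 ^ 2) * (e - π / 30) ∧
    ((c0 ^ 2 - c2 ^ 2) * (e - π / 30)) ^ 2 ≤ r * (9.6 + (c0 ^ 2 - c2 ^ 2) * (e - π / 30)) := by
  have p2 := pi_lt_d6
  have p1 := pi_gt_d6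
  obtain ⟨b1, b2, -⟩ := c01_b
  obtain ⟨a1, a2, -, -, a5, a6⟩ := sq_b
  obtain ⟨p, hp⟩ : ∃ p, p = c0 ^ 2 - c2 ^ 2 := ⟨_, rfl⟩
  have q1 : 89.995 < p := by linarith
  have q2 : p < 89.996 := by linarith
  have q3 : p ^ 2 < 8099.3 := by nlinarith
  rw [← hp]
  obtain ⟨x, hx⟩ : ∃ x, x = e - π / 30 := ⟨_, rfl⟩
  have x1 : -0.10472 < x := by linarith
  have x2 : x < 0.2553 := by linarith
  have hA : 0 < 9.6 + p * x := by nlinarith
  have key : ∀ c : ℝ, 0 < 1 + c * x → c0 - (1 + c0 ^ 2) * (x / (1 + c * x)) ≤ cot e →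
      8099.3 * (1 + c * x) ≤ ((1 + c0 ^ 2) * c - 3 * (1 + c * x)) * (9.6 + p * x) →
      ∃ r : ℝ, c0 - (1 + c0 ^ 2) * x + r + 3 * x ^ 2 ≤ cot e ∧ 0 < 9.6 + p * x ∧
        (p * x) ^ 2 ≤ r * (9.6 + p * x) := by
    intro c k1 k2 k3
    refine ⟨x ^ 2 * (((1 + c0 ^ 2) * c - 3 * (1 + c * x)) / (1 + c * x)), ?_, hA, ?_⟩
    · refine le_of_eq_of_le ?_ k2
      have k4 : 1 + x * c ≠ 0 := by rw [mul_comm]; exact k1.ne'
      rw [mul_comm c x]
      field_simp
      ring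
    · rw [mul_pow, mul_assoc, mul_comm]
      refine mul_le_mul_of_nonneg_left ?_ (sq_nonneg x)
      rw [div_mul_eq_mul_div, le_div_iff₀ k1]
      exact (mul_le_mul_of_nonneg_right q3.le k1.le).trans k3
  rw [← hx]
  rcases lt_trichotomy x 0 with h | h | h
  · obtain ⟨k1, k2⟩ := cot_dn (δ := -x) h0 (by linarith) (by linarith)
    rw [show e + -x = π / 30 by linarith, ← c0] at k1 k2
    refine key c0 (by linarith) (le_of_eq_of_le ?_ k2) ?_
    · rw [show 1 - c0 * -x = 1 + c0 * x by ring]; ring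
    · have m1 : 870.78 ≤ (1 + c0 ^ 2) * c0 := by nlinarith
      have m2 : c0 * x ≤ 9.51436 * x := mul_le_mul_of_nonpos_right b1.le h.le
      have m3 : 89.996 * x ≤ p * x := mul_le_mul_of_nonpos_right q2.le h.le
      have m4 : (867.78 : ℝ) * (9.6 + 89.996 * x) ≤
          ((1 + c0 ^ 2) * c0 - 3 * (1 + c0 * x)) * (9.6 + p * x) :=
        mul_le_mul (by linarith) (by linarith) (by linarith) (by linarith)
      linarith
  · refine ⟨0, ?_, hA, by simp [h]⟩
    rw [h, show e = π / 30 by linarith, c0]; simp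
  · have k2 := cot_up (b := π / 30) (by positivity) h (by linarith) (by linarith)
      (by rw [← c0]; linarith)
    rw [show π / 30 + x = e by linarith, ← c0] at k2
    have k3 : x / (1 + (c0 - 3 / 8 * x) * x) ≤ x / (1 + 9.418 * x) :=
      div_le_div_of_nonneg_left h.le (by positivity) (by
        have := mul_le_mul_of_nonneg_right (by linarith : 9.418 ≤ c0 - 3 / 8 * x) h.le
        linarith)
    refine key 9.418 (by positivity) ?_ ?_
    · linarith [mul_le_mul_of_nonneg_left k3 (by positivity : 0 ≤ 1 + c0 ^ 2)]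
    · have m3 : 89.995 * x ≤ p * x := mul_le_mul_of_nonneg_right q1.le h.le
      have m4 : (858.9 - 28.254 * x) * (9.6 + 89.995 * x) ≤
          ((1 + c0 ^ 2) * 9.418 - 3 * (1 + 9.418 * x)) * (9.6 + p * x) :=
        mul_le_mul (by linarith) (by linarith) (by linarith) (by linarith)
      linarith [mul_pos h (sub_pos.mpr x2)]

end Pool.Agent.MP_2ab689_gt.T32
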