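import Pool.Agent.MP_2ab689_gt.Big.Pig

/-!
The number of flags of a mesh is at least six times the number of vertices minus twelve.
-/

namespace Pool.Agent.MP_2ab689_gt.T32

open Real Big

variable {ι Φ : Type} [Fintype ι] [Fintype Φ] (M : Mesh ι Φ)

theorem up_nb (c : V) {v u : ι} (h : ip c (M.p v) < ip c (M.p u)) :
    ∃ d, M.tl d = v ∧ ip c (M.A d) < ip c (M.B d) := by
  by_contra hn
  have hB : ∀ d, M.tl d = v → ip c (M.B d) ≤ ip c (M.p v) := fun d hd =>
    not_lt.mp fun k => hn ⟨d, hd, by rwa [Mesh.A, hd]⟩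
  have hC : ∀ d, M.tl d = v → ip c (M.C d) ≤ ip c (M.p v) := fun d hd =>
    M.B_r d ▸ hB _ ((M.tl_r d).trans hd)
  rcases le_or_gt 0 (ip c (M.p v)) with h0 | h0
  · obtain ⟨d, hd, t, α, β, γ, ht, a1, a2, a3, a4, e⟩ := M.cover_at v (M.p_mem u)
    have e2 := congrArg (ip c) e
    rw [ip_add_right, ip_add_right, ip_add_right, ip_smul_right, ip_smul_right, ip_smul_right,
      ip_smul_right, ip_sub_right, Mesh.A, hd] at e2
    nlinarith [mul_le_mul_of_nonneg_left (hB d hd) a2, mul_le_mul_of_nonneg_left (hC d hd) a3,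
      mul_pos ht (sub_pos.mpr h), mul_nonneg (sub_nonneg.mpr a4) h0]
  · obtain ⟨w, hw⟩ : ∃ w, w = c - ip c (M.p v) • M.p v := ⟨_, rfl⟩
    have w0 : ip w (M.p v) = 0 := by rw [hw, ip_sub_left, ip_smul_left, M.unit]; ring
    have wB : ∀ d, M.tl d = v → ip w (M.B d) < 0 := fun d hd => by
      have := ip_lt_one (M.unit v) (M.uB d) (M.inj.ne (hd ▸ (M.tl_ne d).symm))
      rw [hw, ip_sub_left, ip_smul_left]
      nlinarith [hB d hd]
    have wC : ∀ d, M.tl d = v → ip w (M.C d) < 0 := fun d hd =>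
      M.B_r d ▸ wB _ ((M.tl_r d).trans hd)
    have ww : 0 < ip w w := by
      refine lt_of_le_of_ne (ip_self_nonneg w) fun e => ?_
      obtain ⟨d, hd⟩ := M.exists_flag v
      have := wB d hd
      rw [eq_zero_of_ip e.symm.le] at this
      simp [ip] at this
    obtain ⟨ε, hε, hb⟩ := M.ball
    have hq : 0 < ε / ip w w := div_pos hε ww
    obtain ⟨d, hd, t, α, β, γ, ht, a1, a2, a3, a4, e⟩ := M.cover_at v (hb (√(ε / ip w w) • w) (by
      rw [ip_smul_left, ip_smul_right, ← mul_assoc, Real.mul_self_sqrt hq.le,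
        div_mul_cancel₀ _ ww.ne']))
    have e2 := congrArg (ip w) e
    rw [ip_add_right, ip_add_right, ip_add_right, ip_smul_right, ip_smul_right, ip_smul_right,
      ip_smul_right, ip_sub_right, ip_smul_right, Mesh.A, hd, w0] at e2
    nlinarith [mul_nonneg a2 (neg_nonneg.mpr (wB d hd).le),
      mul_nonneg a3 (neg_nonneg.mpr (wC d hd).le), mul_pos ht (mul_pos (Real.sqrt_pos.mpr hq) ww)]

theorem ip_neg (c x : V) : ip (-c) x = -ip c x := by simp only [ip, Pi.neg_apply]; ring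

theorem cross {c : V} (hc : M.Generic c) {v u w : ι} (h1 : ip c (M.p v) < ip c (M.p u))
    (h2 : ip c (M.p w) < ip c (M.p v)) :
    ∃ d, M.tl d = v ∧ ip c (M.B d) < ip c (M.A d) ∧ ip c (M.A d) < ip c (M.C d) := by
  classical
  obtain ⟨d1, e1, k1⟩ := up_nb M c h1
  obtain ⟨d2, e2, k2⟩ := up_nb M (-c) (v := v) (u := w) (by rw [ip_neg, ip_neg]; linarith)
  rw [ip_neg, ip_neg, neg_lt_neg_iff] at k2
  by_contra hn
  have := M.star_eq (v := v) (S := (M.star v).filter fun d => ip c (M.B d) < ip c (M.A d))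
    (fun d hd => M.mem_star.mp (Finset.mem_filter.mp hd).1)
    (fun d hd => by
      obtain ⟨a1, a2⟩ := Finset.mem_filter.mp hd
      have a3 := M.mem_star.mp a1
      refine Finset.mem_filter.mpr ⟨M.mem_star.mpr ((M.tl_r d).trans a3), ?_⟩
      rw [M.B_r, M.A_r]
      exact lt_of_le_of_ne (not_lt.mp fun k => hn ⟨d, a3, a2, k⟩) (hc _ _ (M.tl_ne' d)))
    ⟨d2, Finset.mem_filter.mpr ⟨M.mem_star.mpr e2, k2⟩⟩
  have h3 := M.mem_star.mpr e1
  rw [← this] at h3
  linarith [(Finset.mem_filter.mp h3).2]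

include M in
/-- Euler's inequality. -/
theorem euler [Nonempty ι] : 6 * (Fintype.card ι : ℝ) - 12 ≤ Fintype.card Φ := by
  classical
  obtain ⟨c, -, hc, -⟩ := Pig.generic M (c := ![1, 0, 0]) (by simp [ip]) one_pos le_rfl
  obtain ⟨f, hf⟩ : ∃ f : Φ → ℝ, ∀ d, f d = if (ip c (M.B d) < ip c (M.A d) ∧
    ip c (M.A d) < ip c (M.C d)) ∨ (ip c (M.C d) < ip c (M.A d) ∧ ip c (M.A d) < ip c (M.B d))
    then 1 else 0 := ⟨_, fun _ => rfl⟩
  have f0 : ∀ d, 0 ≤ f d := fun d => by rw [hf]; split_ifs <;> norm_num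
  have f1 : ∀ d, f d + f (M.φ d) + f (M.φ (M.φ d)) ≤ 1 := by
    intro d
    simp only [hf, M.A_φ, M.B_φ, M.C_φ]
    split_ifs <;> first | (norm_num; done) | (exfalso; grind)
  have f2 : 3 * ∑ d, f d ≤ Fintype.card Φ := by
    have := Finset.sum_le_sum fun d (_ : d ∈ Finset.univ) => f1 d
    rw [Finset.sum_add_distrib, Finset.sum_add_distrib, M.sum_φφ, M.sum_φ] at this
    simp only [Finset.sum_const, Finset.card_univ, nsmul_eq_mul, mul_one] at this
    linarith
  obtain ⟨u, -, hu⟩ := Finset.exists_max_image Finset.univ (fun i => ip c (M.p i))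
    Finset.univ_nonempty
  obtain ⟨w, -, hw⟩ := Finset.exists_min_image Finset.univ (fun i => ip c (M.p i))
    Finset.univ_nonempty
  have f3 : ∀ v ∈ Finset.univ \ {u, w}, (2 : ℝ) ≤ ∑ d ∈ M.star v, f d := by
    intro v hv
    simp only [Finset.mem_sdiff, Finset.mem_univ, Finset.mem_insert, Finset.mem_singleton, not_or,
      true_and] at hv
    have h1 := lt_of_le_of_ne (hu v (Finset.mem_univ _)) (hc _ _ hv.1)
    have h2 := lt_of_le_of_ne (hw v (Finset.mem_univ _)) (hc _ _ (Ne.symm hv.2))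
    obtain ⟨d1, e1, k1⟩ := cross M hc h1 h2
    obtain ⟨d2, e2, k2⟩ := cross M (c := -c) (v := v) (u := w) (w := u)
      (fun i j hij e => hc i j hij (by rwa [ip_neg, ip_neg, neg_inj] at e))
      (by rw [ip_neg, ip_neg]; linarith) (by rw [ip_neg, ip_neg]; linarith)
    simp only [ip_neg, neg_lt_neg_iff] at k2
    have hne : d1 ≠ d2 := fun e => by rw [e] at k1; linarith [k1.1, k2.1]
    have := Finset.sum_le_sum_of_subset_of_nonneg (s := {d1, d2}) (t := M.star v) (f := f)
      (fun d hd => by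
        rcases Finset.mem_insert.mp hd with rfl | hd
        · exact M.mem_star.mpr e1
        · rw [Finset.mem_singleton.mp hd]; exact M.mem_star.mpr e2) fun d _ _ => f0 d
    rw [Finset.sum_pair hne, hf d1, hf d2, if_pos (Or.inl k1), if_pos (Or.inr k2.symm)] at this
    linarith
  have f4 := (Finset.sum_le_sum f3).trans (Finset.sum_le_sum_of_subset_of_nonneg
    (Finset.subset_univ _) fun v _ _ => Finset.sum_nonneg fun d _ => f0 d)
  rw [M.sum_star, Finset.sum_const, nsmul_eq_mul] at f4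
  have f5 : Fintype.card ι ≤ (Finset.univ \ {u, w} : Finset ι).card + 2 := by
    have := Finset.le_card_sdiff ({u, w} : Finset ι) Finset.univ
    have h2 : ({u, w} : Finset ι).card ≤ 2 := Finset.card_le_two
    rw [Finset.card_univ] at this
    omega
  have f6 : (Fintype.card ι : ℝ) ≤ (Finset.univ \ {u, w} : Finset ι).card + 2 := by
    exact_mod_cast f5
  linarith

end Pool.Agent.MP_2ab689_gt.T32
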