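import Pool.Agent.MP_2ab689_gt.T32.Loc
import Pool.Agent.MP_2ab689_gt.Big.Angle

/-!
The local inequality on the faces of a mesh.
-/

namespace Pool.Agent.MP_2ab689_gt.T32

open Real Big

theorem arg_mem {w : ℂ} (h : 0 < w.im) : 0 < w.arg ∧ w.arg < π :=
  ⟨lt_of_le_of_ne (Complex.arg_nonneg_iff.mpr h.le)
    fun e => h.ne' (Complex.arg_eq_zero_iff.mp e.symm).2, Complex.arg_lt_pi_iff.mpr (Or.inr h.ne')⟩

theorem cot_arg (x y : ℝ) : cot (Complex.arg ⟨x, y⟩) = x / y := by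
  rw [← tan_inv_eq_cot, Complex.tan_arg, inv_div]

theorem arg_add {u v w : ℂ} {k : ℝ} (hu : 0 < u.im) (hv : 0 < v.im) (hw : 0 < w.im) (hk : 0 < k)
    (e : u * v = k * w) : u.arg + v.arg = w.arg := by
  have u0 : u ≠ 0 := fun h => hu.ne' (by rw [h]; rfl)
  have v0 : v ≠ 0 := fun h => hv.ne' (by rw [h]; rfl)
  have e2 : ((u.arg + v.arg : ℝ) : Real.Angle) = (w.arg : ℝ) := by
    rw [Real.Angle.coe_add, ← Complex.arg_mul_coe_angle u0 v0, e, Complex.arg_real_mul _ hk]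
  obtain ⟨n, hn⟩ := Real.Angle.angle_eq_iff_two_pi_dvd_sub.mp e2
  obtain ⟨a1, a2⟩ := arg_mem hu
  obtain ⟨b1, b2⟩ := arg_mem hv
  obtain ⟨d1, d2⟩ := arg_mem hw
  have k1 : (n : ℝ) < 1 := by
    by_contra h
    nlinarith [pi_pos]
  have k2 : (-1 : ℝ) < n := by
    by_contra h
    nlinarith [pi_pos]
  have : n = 0 := by
    have a1 : n < 1 := by exact_mod_cast k1
    have a2 : -1 < n := by exact_mod_cast k2
    omega
  rw [this] at hn
  simp only [Int.cast_zero, mul_zero] at hn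
  linarith

theorem arg_flip {x y : ℝ} (h : 0 < y) : Complex.arg ⟨-x, y⟩ = π - Complex.arg ⟨x, y⟩ := by
  have e : (⟨-x, y⟩ : ℂ) = -(starRingEnd ℂ) ⟨x, y⟩ := by apply Complex.ext <;> simp
  rw [e, Complex.arg_neg_eq_arg_add_pi_of_im_neg (by simpa using h), Complex.arg_conj,
    if_neg (arg_mem (w := ⟨x, y⟩) h).2.ne]
  ring

/-- The four angles of a spherical triangle. -/
theorem angles {p q r D : ℝ} (hD : 0 < D)
    (e : D ^ 2 = 1 + 2 * p * q * r - q ^ 2 - r ^ 2 - p ^ 2) (hq : q ^ 2 < 1) :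
    Complex.arg ⟨1 + q - p - r, D⟩ + Complex.arg ⟨1 + p + q + r, D⟩ = Complex.arg ⟨q - p * r, D⟩ ∧
    Complex.arg ⟨1 + r - q - p, D⟩ + Complex.arg ⟨1 + p - r - q, D⟩ =
      π - Complex.arg ⟨q - p * r, D⟩ := by
  have h1 : 0 < 2 * (1 + q) := by nlinarith
  have h2 : 0 < 2 * (1 - q) := by nlinarith
  constructor
  · refine arg_add hD hD hD h1 (Complex.ext ?_ ?_)
    · simp only [Complex.mul_re, Complex.ofReal_re, Complex.ofReal_im]
      linear_combination -e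
    · simp only [Complex.mul_im, Complex.ofReal_re, Complex.ofReal_im]
      ring
  · rw [← arg_flip hD]
    refine arg_add hD hD hD h2 (Complex.ext ?_ ?_)
    · simp only [Complex.mul_re, Complex.ofReal_re, Complex.ofReal_im]
      linear_combination -e
    · simp only [Complex.mul_im, Complex.ofReal_re, Complex.ofReal_im]
      ring

variable {ι Φ : Type} [Fintype ι] [Fintype Φ] (M : Mesh ι Φ)

/-- The flag starts at the apex of an extremal face. -/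
def Std (τ : ι → Bool) (d : Φ) : Prop :=
  τ (M.tl d) = true ∧ τ (M.tl (M.φ d)) = false ∧ τ (M.tl (M.φ (M.φ d))) = false ∧
    ip (M.A d) (M.B d) = (c0 - c1) / X0 ∧ ip (M.B d) (M.C d) = 1 - 4 * c2 / X0 ∧
    ip (M.C d) (M.A d) = (c0 - c1) / X0 ∧ M.D d = 4 / X0

/-- The first auxiliary angle. -/
noncomputable def bb (d : Φ) : ℝ :=
  Complex.arg ⟨1 + ip (M.B d) (M.C d) - ip (M.A d) (M.B d) - ip (M.C d) (M.A d), M.D d⟩

/-- Half of the spherical excess. -/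
noncomputable def ee (d : Φ) : ℝ := Complex.arg ⟨M.N d, M.D d⟩

theorem ee_φ (d : Φ) : ee M (M.φ d) = ee M d := by rw [ee, ee, M.N_φ, M.D_φ]

theorem BC_sq (d : Φ) : ip (M.B d) (M.C d) ^ 2 < 1 := by
  have h := M.D_sq d
  have h1 := ip_sq_le (M.A d) (M.B d)
  have h2 := ip_sq_le (M.B d) (M.C d)
  rw [M.uA, M.uB] at h1
  rw [M.uB, M.uC] at h2
  have h3 := pow_pos (M.D_pos d) 2
  by_contra hn
  have : ip (M.B d) (M.C d) ^ 2 = 1 := by linarith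
  nlinarith [sq_nonneg (ip (M.C d) (M.A d) - ip (M.A d) (M.B d) * ip (M.B d) (M.C d))]

theorem θ_eq (d : Φ) : bb M d + ee M d = M.θ d ∧
    ee M d + bb M d + bb M (M.φ d) + bb M (M.φ (M.φ d)) = π := by
  obtain ⟨h1, h2⟩ := angles (M.D_pos d) (M.D_sq d) (BC_sq M d)
  refine ⟨h1, ?_⟩
  have e1 : bb M (M.φ d) = Complex.arg ⟨1 + ip (M.C d) (M.A d) - ip (M.B d) (M.C d)
      - ip (M.A d) (M.B d), M.D d⟩ := by rw [bb, M.A_φ, M.B_φ, M.C_φ, M.D_φ]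
  have e2 : bb M (M.φ (M.φ d)) = Complex.arg ⟨1 + ip (M.A d) (M.B d) - ip (M.C d) (M.A d)
      - ip (M.B d) (M.C d), M.D d⟩ := by
    simp only [bb, M.A_φ, M.B_φ, M.C_φ, M.D_φ]
  rw [e1, e2, add_assoc, h2, ← h1, ee, bb, Mesh.N]
  ring

theorem cot_sum (d : Φ) : (cot (ee M d) + cot (bb M d) + cot (bb M (M.φ d))
    + cot (bb M (M.φ (M.φ d)))) * M.D d = 4 := by
  have := M.D_pos d
  simp only [ee, bb, M.A_φ, M.B_φ, M.C_φ, M.D_φ, cot_arg, Mesh.N]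
  field_simp
  ring

theorem std_of {τ : ι → Bool} {d : Φ} (h : τ (M.tl d) = true ∧ τ (M.tl (M.φ d)) = false ∧
    τ (M.tl (M.φ (M.φ d))) = false ∧ ee M d = π / 30 ∧ bb M d = 11 * π / 30 ∧
    bb M (M.φ d) = 3 * π / 10 ∧ bb M (M.φ (M.φ d)) = 3 * π / 10) :
    Std M τ d ∧ M.D d * X0 ^ 2 = 4 * (H (τ (M.tl d)) (M.θ d) + H (τ (M.tl (M.φ d))) (M.θ (M.φ d))
      + H (τ (M.tl (M.φ (M.φ d)))) (M.θ (M.φ (M.φ d)))) := by
  obtain ⟨t1, t2, t3, a0, a1, a2, a3⟩ := h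
  have hD := M.D_pos d
  have hX : 0 < X0 := by linarith [X0_b.1]
  have e := cot_sum M d
  have b0 := congrArg cot a0
  have b1 := congrArg cot a1
  have b2 := congrArg cot a2
  have b3 := congrArg cot a3
  rw [b0, b1, b2, b3, ← c0, ← c1, ← c2] at e
  have eD : X0 * M.D d = 4 := by unfold X0; linarith
  simp only [ee, bb, M.A_φ, M.B_φ, M.C_φ, M.D_φ, cot_arg, Mesh.N,
    div_eq_iff hD.ne'] at b0 b1 b2 b3
  rw [← c0] at b0
  rw [← c1] at b1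
  rw [← c2] at b2 b3
  refine ⟨⟨t1, t2, t3, ?_, ?_, ?_, ?_⟩, ?_⟩
  · rw [eq_div_iff hX.ne']
    linear_combination X0 / 4 * (b0 - b1 - b2 + b3) + (c0 - c1) / 4 * eD
  · rw [eq_sub_iff_add_eq', ← eq_sub_iff_add_eq, div_eq_iff hX.ne']
    linear_combination (-X0 / 2) * (b2 + b3) - c2 * eD
  · rw [eq_div_iff hX.ne']
    linear_combination X0 / 4 * (b0 - b1 + b2 - b3) + (c0 - c1) / 4 * eD
  · rw [eq_div_iff hX.ne']; linarith
  · rw [← (θ_eq M d).1, ← (θ_eq M (M.φ d)).1, ← (θ_eq M (M.φ (M.φ d))).1, ee_φ M (M.φ d), ee_φ,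
      t1, t2, t3, a0, a1, a2, a3]
    simp only [H]
    linear_combination X0 * eD

theorem face (τ : ι → Bool) (d : Φ) :
    M.D d * X0 ^ 2 < 4 * (H (τ (M.tl d)) (M.θ d) + H (τ (M.tl (M.φ d))) (M.θ (M.φ d))
      + H (τ (M.tl (M.φ (M.φ d)))) (M.θ (M.φ (M.φ d)))) ∨
    (M.D d * X0 ^ 2 = 4 * (H (τ (M.tl d)) (M.θ d) + H (τ (M.tl (M.φ d))) (M.θ (M.φ d))
      + H (τ (M.tl (M.φ (M.φ d)))) (M.θ (M.φ (M.φ d)))) ∧
      (Std M τ d ∨ Std M τ (M.φ d) ∨ Std M τ (M.φ (M.φ d)))) := by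
  have hD := M.D_pos d
  have e := cot_sum M d
  have hb : ∀ d, 0 < bb M d := fun d => (arg_mem (M.D_pos d)).1
  have D1 : M.D d ≤ 1 := by
    have := (le_abs_self _).trans (abs_det3_le (M.A d) (M.B d) (M.C d))
    rwa [nv_eq_one (M.uA d), nv_eq_one (M.uB d), nv_eq_one (M.uC d), mul_one, mul_one] at this
  have hX : 4 ≤ cot (ee M d) + cot (bb M d) + cot (bb M (M.φ d)) + cot (bb M (M.φ (M.φ d))) := by
    have h0 := (pos_iff_pos_of_mul_pos (e ▸ four_pos)).mpr hD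
    nlinarith
  rcases loc (arg_mem (w := ⟨M.N d, M.D d⟩) hD).1 (hb d) (hb _) (hb _) (θ_eq M d).2 hX
    (τ (M.tl d)) (τ (M.tl (M.φ d))) (τ (M.tl (M.φ (M.φ d)))) with h | h | h | h
  · left
    have := mul_lt_mul_of_pos_left h hD
    rw [← mul_assoc, mul_comm (M.D d) (_ + _)] at this
    change _ < (cot (ee M d) + _ + _ + _) * _ * (H _ (_ + ee M d) + H _ (_ + ee M d) +
      H _ (_ + ee M d)) at this
    rw [e] at this
    rwa [← (θ_eq M d).1, ← (θ_eq M (M.φ d)).1, ← (θ_eq M (M.φ (M.φ d))).1, ee_φ M (M.φ d),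
      ee_φ]
  · exact Or.inr ⟨(std_of M h).2, Or.inl (std_of M h).1⟩
  · obtain ⟨t1, t2, t3, a0, a1, a2, a3⟩ := h
    obtain ⟨k1, k2⟩ := std_of M (τ := τ) (d := M.φ d)
      ⟨t2, t3, by rwa [M.φ3], (ee_φ M d).trans a0, a1, a2, by rwa [M.φ3]⟩
    rw [M.D_φ, M.φ3] at k2
    exact Or.inr ⟨by linarith, Or.inr (Or.inl k1)⟩
  · obtain ⟨t1, t2, t3, a0, a1, a2, a3⟩ := h
    obtain ⟨k1, k2⟩ := std_of M (τ := τ) (d := M.φ (M.φ d))
      ⟨t3, by rwa [M.φ3], by rwa [M.φ3], (ee_φ M _).trans ((ee_φ M d).trans a0), a1,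
        by rwa [M.φ3], by rwa [M.φ3]⟩
    rw [M.D_φ, M.D_φ, M.φ3] at k2
    exact Or.inr ⟨by linarith, Or.inr (Or.inr k1)⟩

end Pool.Agent.MP_2ab689_gt.T32
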