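import Pool.Agent.MP_2ab689_gt.T32.Face
import Pool.Agent.MP_2ab689_gt.T32.Euler

/-!
The global bound for meshes with 32 vertices and the development of an extremal mesh.
-/

namespace Pool.Agent.MP_2ab689_gt.T32

open Real Big

variable {ι Φ : Type} [Fintype ι] [Fintype Φ] (M : Mesh ι Φ)

theorem vertex (v : ι) : ∑ d ∈ M.star v, H (decide (M.deg (M.tl d) ≤ 5)) (M.θ d) ≤
    3.978 + (5 * X0 - 10.608) * (6 - ∑ _d ∈ M.star v, (1 : ℝ)) := by
  have e : ∑ d ∈ M.star v, H (decide (M.deg (M.tl d) ≤ 5)) (M.θ d) =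
      ∑ d ∈ M.star v, H (decide (M.deg v ≤ 5)) (M.θ d) :=
    Finset.sum_congr rfl fun d hd => by rw [M.mem_star.mp hd]
  obtain ⟨-, -, -, -, m1, m2, m3, m4⟩ := l_b
  obtain ⟨x1, x2, -⟩ := X0_b
  rw [e, Finset.sum_const, nsmul_eq_mul, mul_one, ← Mesh.deg]
  by_cases h : M.deg v ≤ 5
  · have h' : (M.deg v : ℝ) ≤ 5 := by exact_mod_cast h
    simp only [h, decide_true, H, Finset.sum_add_distrib, ← Finset.mul_sum, Finset.sum_sub_distrib,
      M.angle_sum, Finset.sum_const, nsmul_eq_mul]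
    rw [← Mesh.deg]
    nlinarith [mul_nonneg (sub_nonneg.mpr h')
      (by linarith : 0 ≤ 6 * X0 - 11.934 - 2 / 5 * (l5 * π))]
  · have h' : (6 : ℝ) ≤ M.deg v := by exact_mod_cast not_le.mp h
    simp only [h, decide_false, H, Finset.sum_add_distrib, ← Finset.mul_sum,
      Finset.sum_sub_distrib, M.angle_sum, Finset.sum_const, nsmul_eq_mul]
    rw [← Mesh.deg]
    nlinarith [mul_nonneg (sub_nonneg.mpr h')
      (by linarith : 0 ≤ 1 / 3 * (l6 * π) + 9.945 - 5 * X0)]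

/-- The global bound with its case of equality. -/
theorem glob (h : Fintype.card ι = 32) : M.vol ≤ 40 / X0 ∧ (40 / X0 ≤ M.vol → ∃ τ : ι → Bool,
    ∀ d, Std M τ d ∨ Std M τ (M.φ d) ∨ Std M τ (M.φ (M.φ d))) := by
  have : Nonempty ι := Fintype.card_pos_iff.mp (by omega)
  obtain ⟨τ, hτ⟩ : ∃ τ : ι → Bool, ∀ v, τ v = decide (M.deg v ≤ 5) := ⟨_, fun _ => rfl⟩
  obtain ⟨x1, x2, -⟩ := X0_b
  have hX : 0 < X0 := by linarith
  have h1 : ∑ d, H (τ (M.tl d)) (M.θ d) ≤ 60 * X0 := by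
    have h2 := Finset.sum_le_sum fun v (_ : v ∈ Finset.univ) => vertex M v
    have h3 := euler M
    rw [M.sum_star, Finset.sum_add_distrib, ← Finset.mul_sum, Finset.sum_sub_distrib,
      M.sum_star] at h2
    simp only [Finset.sum_const, Finset.card_univ, nsmul_eq_mul, mul_one, h, ← hτ] at h2
    rw [h] at h3
    push_cast at h2 h3
    nlinarith [mul_nonneg (sub_nonneg.mpr h3) (by linarith : 0 ≤ 5 * X0 - 10.608)]
  have h2 : ∑ d, 4 * (H (τ (M.tl d)) (M.θ d) + H (τ (M.tl (M.φ d))) (M.θ (M.φ d))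
      + H (τ (M.tl (M.φ (M.φ d)))) (M.θ (M.φ (M.φ d)))) ≤ 720 * X0 := by
    rw [← Finset.mul_sum, Finset.sum_add_distrib, Finset.sum_add_distrib,
      M.sum_φφ fun d => H (τ (M.tl d)) (M.θ d), M.sum_φ fun d => H (τ (M.tl d)) (M.θ d)]
    linarith
  have h3 : ∑ d, M.D d * X0 ^ 2 = 18 * M.vol * X0 ^ 2 := by rw [← Finset.sum_mul, M.sum_D]
  have h4 := fun d (_ : d ∈ Finset.univ) => (face M τ d).elim le_of_lt fun k => k.1.le
  constructor
  · have := Finset.sum_le_sum h4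
    rw [le_div_iff₀ hX]
    nlinarith
  · intro hv
    refine ⟨τ, fun d => (face M τ d).elim (fun k => ?_) fun k => k.2⟩
    have := Finset.sum_lt_sum h4 ⟨d, Finset.mem_univ _, k⟩
    rw [div_le_iff₀ hX] at hv
    nlinarith

/-- A vector is determined by two inner products and a determinant. -/
theorem det_vec {a b x y z : V} (hz : det3 a b z ≠ 0) (h1 : ip a x = ip a y) (h2 : ip b x = ip b y)
    (h3 : det3 a b x = det3 a b y) : x = y := by
  have hn : ip (crs a b) (crs a b) ≠ 0 := fun e => hz (by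
    have e0 := eq_zero_of_ip e.le
    have c0 := congrFun e0 0
    have c1 := congrFun e0 1
    have c2 := congrFun e0 2
    simp only [crs, Matrix.cons_val_zero, Matrix.cons_val_one, Matrix.cons_val_two,
      Matrix.head_cons, Matrix.tail_cons, Pi.zero_apply] at c0 c1 c2
    unfold det3
    linear_combination z 0 * c0 + z 1 * c1 + z 2 * c2)
  simp only [ip, det3, crs, Matrix.cons_val_zero, Matrix.cons_val_one, Matrix.cons_val_two,
    Matrix.head_cons, Matrix.tail_cons] at *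
  funext i
  refine mul_left_cancel₀ hn ?_
  fin_cases i
  · simp only [Fin.zero_eta]
    linear_combination (b 1 * (a 0 * b 1 - a 1 * b 0) - b 2 * (a 2 * b 0 - a 0 * b 2)) * h1
      - (a 1 * (a 0 * b 1 - a 1 * b 0) - a 2 * (a 2 * b 0 - a 0 * b 2)) * h2
      + (a 1 * b 2 - a 2 * b 1) * h3
  · simp only [Fin.mk_one]
    linear_combination (b 2 * (a 1 * b 2 - a 2 * b 1) - b 0 * (a 0 * b 1 - a 1 * b 0)) * h1
      - (a 2 * (a 1 * b 2 - a 2 * b 1) - a 0 * (a 0 * b 1 - a 1 * b 0)) * h2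
      + (a 2 * b 0 - a 0 * b 2) * h3
  · simp only [Fin.reduceFinMk]
    linear_combination (b 0 * (a 2 * b 0 - a 0 * b 2) - b 1 * (a 1 * b 2 - a 2 * b 1)) * h1
      - (a 0 * (a 2 * b 0 - a 0 * b 2) - a 1 * (a 1 * b 2 - a 2 * b 1)) * h2
      + (a 0 * b 1 - a 1 * b 0) * h3

/-- A triple of vectors with the shape of the extremal face. -/
def Shape (a b c : V) : Prop := ip a b = (c0 - c1) / X0 ∧ ip b c = 1 - 4 * c2 / X0 ∧
  ip c a = (c0 - c1) / X0 ∧ det3 a b c = 4 / X0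

/-- The triple occurs as an extremal face of the mesh. -/
def Occ (τ : ι → Bool) (a b c : V) : Prop :=
  ∃ d, Std M τ d ∧ M.A d = a ∧ M.B d = b ∧ M.C d = c

theorem X0_ne : 4 / X0 ≠ 0 := (div_pos four_pos (by linarith [X0_b.1])).ne'

variable {M} {τ : ι → Bool}
  (hM : ∀ d, Std M τ d ∨ Std M τ (M.φ d) ∨ Std M τ (M.φ (M.φ d)))
include hM

theorem std_tl {d : Φ} (h : τ (M.tl d) = true) : Std M τ d := by
  rcases hM d with k | k | k
  · exact k
  · have := k.2.2.1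
    rw [M.φ3, h] at this
    exact absurd this (by simp)
  · have := k.2.1
    rw [M.φ3, h] at this
    exact absurd this (by simp)

theorem occ_rot {a b c x : V} (h : Occ M τ a b c) (hs : Shape a c x) : Occ M τ a c x := by
  obtain ⟨d, k, rfl, rfl, rfl⟩ := h
  have k' := std_tl hM (d := M.r d) (by rw [M.tl_r, k.1])
  refine ⟨M.r d, k', M.A_r d, M.B_r d, ?_⟩
  obtain ⟨-, -, -, -, a2, a3, a4⟩ := k'
  rw [Mesh.D, M.A_r, M.B_r] at a4
  rw [M.B_r] at a2
  rw [M.A_r] at a3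
  exact det_vec (a4 ▸ X0_ne) (by rw [ip_comm, a3, ip_comm, hs.2.2.1]) (a2.trans hs.2.1.symm)
    (a4.trans hs.2.2.2.symm)

theorem occ_flip {a b c x : V} (h : Occ M τ a b c) (hs : Shape x c b) : Occ M τ x c b := by
  obtain ⟨d, k, rfl, rfl, rfl⟩ := h
  have k' : Std M τ (M.φ (M.φ (M.s (M.φ d)))) := by
    rcases hM (M.s (M.φ d)) with k1 | k1 | k1
    · have := k1.1
      rw [M.tl_s, k.2.2.1] at this
      exact absurd this (by simp)
    · have := k1.1
      rw [M.tl_φs, k.2.1] at this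
      exact absurd this (by simp)
    · exact k1
  have eB : M.B (M.φ (M.φ (M.s (M.φ d)))) = M.C d := by rw [M.B_φ, M.C_φ, M.A_s, M.B_φ]
  have eC : M.C (M.φ (M.φ (M.s (M.φ d)))) = M.B d := by rw [M.C_φ, M.A_φ, M.B_s, M.A_φ]
  refine ⟨_, k', ?_, eB, eC⟩
  obtain ⟨-, -, -, a1, -, a3, a4⟩ := k'
  rw [Mesh.D, eB, eC, ← det3_rot] at a4
  rw [eB] at a1
  rw [eC] at a3
  exact det_vec (a4 ▸ X0_ne) (by rw [ip_comm, a1, ip_comm, hs.1]) (a3.trans hs.2.2.1.symm)
    (by rw [a4, det3_rot, hs.2.2.2])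

end Pool.Agent.MP_2ab689_gt.T32
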