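import Pool.Agent.MP_2ab689_gt.T32.Const

/-!
The local inequality of the case of 32 vertices.
-/

namespace Pool.Agent.MP_2ab689_gt.T32

open Real

theorem core {X Y A W L l r Q : ℝ} (h0 : Y = A + W) (hA : 0 < A + L) (hW : 0 < W + l)
    (hX : Y - L - l + r + Q ≤ X) (hr : L ^ 2 ≤ r * (A + L)) (hQ : l ^ 2 ≤ Q * (W + l)) :
    Y ^ 2 ≤ X * (Y + L + l) := by
  obtain ⟨a, ha⟩ : ∃ a, a = A + L := ⟨_, rfl⟩
  obtain ⟨w, hw⟩ : ∃ w, w = W + l := ⟨_, rfl⟩
  rw [← ha] at hA hr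
  rw [← hw] at hW hQ
  obtain ⟨u, rfl⟩ : ∃ u, L = u * a := ⟨L / a, by field_simp⟩
  obtain ⟨v, rfl⟩ : ∃ v, l = v * w := ⟨l / w, by field_simp⟩
  have h1 : u ^ 2 * a ≤ r := le_of_mul_le_mul_right (by linarith) hA
  have h2 : v ^ 2 * w ≤ Q := le_of_mul_le_mul_right (by linarith) hW
  have e : Y + u * a + v * w = a + w := by linarith
  have h3 : (Y - u * a - v * w + u ^ 2 * a + v ^ 2 * w) * (a + w) ≤ X * (a + w) :=
    mul_le_mul_of_nonneg_right (by linarith) (by linarith)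
  have h4 : 0 ≤ a * w * (u - v) ^ 2 := by positivity
  have e2 : Y = a + w - u * a - v * w := by linarith
  rw [e]
  refine le_trans ?_ h3
  rw [e2]
  linarith

theorem one {e X S ρ κ : ℝ} (he : 0 < e) (hX : 1 / e + 1.73205 + 0.9933 * e ≤ X)
    (hS : ρ * e + κ ≤ S) (h0 : 0 ≤ ρ * e + κ)
    (hp : 130.2495 * e < (1 + 1.73205 * e + 0.9933 * e ^ 2) * (ρ * e + κ)) : X0 ^ 2 < X * S := by
  have h1 : (1 / e + 1.73205 + 0.9933 * e) * (ρ * e + κ) ≤ X * S :=
    mul_le_mul hX hS h0 (le_trans (by positivity) hX)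
  have h2 : 130.2495 < (1 / e + 1.73205 + 0.9933 * e) * (ρ * e + κ) := by
    refine lt_of_mul_lt_mul_right (hp.trans_eq ?_) he.le
    field_simp
  linarith [X0_b.2.2]

section
variable {e a b c : ℝ}

theorem x60 (he : 0 < e) (ha : 0 < a) (hb : 0 < b) (hc : 0 < c) (hs : e + a + b + c = π)
    (he' : e ≤ 9 / 25) (ha' : a ≤ 2 * π / 3) (hb' : b ≤ 2 * π / 3) (hc' : c ≤ 2 * π / 3) :
    1 / e + 1.73205 + 0.9933 * e ≤ cot e + cot a + cot b + cot c := by
  linarith [cot_ge'' he he', t60 ha ha', t60 hb hb', t60 hc hc']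

theorem loc666 (he : 0 < e) (ha : 0 < a) (hb : 0 < b) (hc : 0 < c) (hs : e + a + b + c = π)
    (he' : e ≤ 9 / 25) (ha' : a ≤ 2 * π / 3) (hb' : b ≤ 2 * π / 3) (hc' : c ≤ 2 * π / 3) :
    X0 ^ 2 < (cot e + cot a + cot b + cot c) *
      (H false (a + e) + H false (b + e) + H false (c + e)) := by
  refine one (ρ := 90.3246) (κ := 1.989) he (x60 he ha hb hc hs he' ha' hb' hc') ?_
    (by positivity) ?_
  · have : H false (a + e) + H false (b + e) + H false (c + e) = 2 * (l6 * e) + 1.989 := by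
      simp only [H]; linear_combination l6 * hs
    linarith [mul_le_mul_of_nonneg_right l_b.2.2.1.le he.le]
  · nlinarith [mul_nonneg he.le (sq_nonneg (e - 0.1057)), sq_nonneg (e - 0.1057)]

theorem loc555 (he : 0 < e) (ha : 0 < a) (hb : 0 < b) (hc : 0 < c) (hs : e + a + b + c = π)
    (he' : e ≤ 9 / 25) (ha' : a ≤ 2 * π / 3) (hb' : b ≤ 2 * π / 3) (hc' : c ≤ 2 * π / 3) :
    X0 ^ 2 < (cot e + cot a + cot b + cot c) *
      (H true (a + e) + H true (b + e) + H true (c + e)) := by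
  refine one (ρ := 89.6654) (κ := 2.09) he (x60 he ha hb hc hs he' ha' hb' hc') ?_
    (by positivity) ?_
  · have : H true (a + e) + H true (b + e) + H true (c + e) =
        2 * (l5 * e) - l5 * π / 5 + 3 * X0 - 3.978 := by
      simp only [H]; linear_combination l5 * hs
    linarith [mul_le_mul_of_nonneg_right l_b.1.le he.le, X0_b.1, l_b.2.2.2.2.2.1]
  · nlinarith [mul_nonneg he.le (sq_nonneg (e - 0.1075)), sq_nonneg (e - 0.1075)]

theorem loc556 (he : 0 < e) (ha : 0 < a) (hb : 0 < b) (hc : 0 < c) (hs : e + a + b + c = π)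
    (he' : e ≤ 9 / 25) (ha' : a ≤ 2 * π / 3) (hb' : b ≤ 2 * π / 3) (hc' : c ≤ 2 * π / 3) :
    X0 ^ 2 < (cot e + cot a + cot b + cot c) *
      (H true (a + e) + H true (b + e) + H false (c + e)) := by
  obtain ⟨r, r1, r2, r3⟩ := t6 he he'
  have k1 := t60 ha ha'
  have k2 := t60 hb hb'
  have k3 := t54 hc hc'
  have k4 := t54' hc
  obtain ⟨x, hx⟩ : ∃ x, x = e - π / 30 := ⟨_, rfl⟩
  obtain ⟨δ, hδ⟩ : ∃ δ, δ = c - 3 * π / 10 := ⟨_, rfl⟩
  rw [← hx] at r1 r2 r3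
  rw [← hδ] at k3 k4
  have p2 := pi_lt_d6
  have p1 := pi_gt_d6
  obtain ⟨-, -, a3, a4, a5, a6⟩ := sq_b
  obtain ⟨x1, x2, -⟩ := X0_b
  obtain ⟨-, -, -, -, m1, m2, -⟩ := l_b
  obtain ⟨-, -, d1, d2⟩ := c01_b
  obtain ⟨d3, d4⟩ := c2_b
  obtain ⟨l, hl⟩ : ∃ l, l = X0 - 1.989 - l5 * π / 15 + (c2 ^ 2 - c1 ^ 2) * δ := ⟨_, rfl⟩
  have eS : H true (a + e) + H true (b + e) + H false (c + e) =
      X0 + (c0 ^ 2 - c2 ^ 2) * x + l := by
    simp only [H, hl, hx, hδ, l5, l6]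
    linear_combination ((c0 ^ 2 + c1 ^ 2) / 2 - c2 ^ 2) * hs
  have hδ1 : -0.943 < δ := by linarith
  have hδ2 : δ < 1.152 := by linarith
  have hx1 : -0.003155 ≤ (1 / 3 - c2 ^ 2) * x + 3 * x ^ 2 := by
    nlinarith [sq_nonneg (x + (1 / 3 - c2 ^ 2) / 6)]
  have key : ∀ G : ℝ, c2 - (1 + c2 ^ 2) * δ + G ≤ cot c → 0 < X0 - 9.6 + l →
      l ^ 2 ≤ (0.0135 + (1 / 3 - c1 ^ 2) * δ + G) * (X0 - 9.6 + l) →
      X0 ^ 2 < (cot e + cot a + cot b + cot c) * (X0 + (c0 ^ 2 - c2 ^ 2) * x + l) := by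
    intro G g1 g2 g3
    have := core (X := cot e + cot a + cot b + cot c - 0.0001) (Y := X0) (by ring) r2 g2 (by
      have : X0 = c0 + c1 + 2 * c2 := rfl
      linarith) r3 g3
    linarith
  rw [eS]
  rcases le_total δ 0 with h | h
  · have n1 : 0.3297 * δ ≤ (c2 ^ 2 - c1 ^ 2) * δ := mul_le_mul_of_nonpos_right (by linarith) h
    have n2 : (c2 ^ 2 - c1 ^ 2) * δ ≤ 0 := mul_nonpos_of_nonneg_of_nonpos (by linarith) h
    have n3 : 0.1352 * δ ≤ (1 / 3 - c1 ^ 2) * δ := mul_le_mul_of_nonpos_right (by linarith) h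
    refine key (δ ^ 2) (k4 (by linarith)) (by linarith) ?_
    have n4 : (0.0135 + 0.1352 * δ + δ ^ 2) * 1.5 ≤
        (0.0135 + (1 / 3 - c1 ^ 2) * δ + δ ^ 2) * (X0 - 9.6 + l) :=
      mul_le_mul (by linarith) (by linarith) (by norm_num) (by linarith [sq_nonneg (δ + 0.07)])
    have n5 : l ^ 2 ≤ (0.034 - 0.3297 * δ) ^ 2 := sq_le_sq' (by linarith) (by linarith)
    linarith [sq_nonneg (δ + 0.08), sq_nonneg δ]
  · have n1 : 0.3296 * δ ≤ (c2 ^ 2 - c1 ^ 2) * δ := mul_le_mul_of_nonneg_right (by linarith) h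
    have n2 : (c2 ^ 2 - c1 ^ 2) * δ ≤ 0.3297 * δ := mul_le_mul_of_nonneg_right (by linarith) h
    have n3 : 0.1351 * δ ≤ (1 / 3 - c1 ^ 2) * δ := mul_le_mul_of_nonneg_right (by linarith) h
    refine key 0 (by linarith [sq_nonneg δ]) (by linarith) ?_
    have n4 : (0.0135 + 0.1351 * δ) * 1.84 ≤
        (0.0135 + (1 / 3 - c1 ^ 2) * δ + 0) * (X0 - 9.6 + l) :=
      mul_le_mul (by linarith) (by linarith) (by norm_num) (by linarith)
    have n5 : l ^ 2 ≤ (0.034 + 0.3297 * δ) ^ 2 := sq_le_sq' (by linarith) (by linarith)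
    linarith [mul_nonneg h (sub_nonneg.mpr hδ2.le)]

theorem loc566 (he : 0 < e) (ha : 0 < a) (hb : 0 < b) (hc : 0 < c) (hs : e + a + b + c = π)
    (he' : e ≤ 9 / 25) (ha' : a ≤ 2 * π / 3) (hb' : b ≤ 2 * π / 3) (hc' : c ≤ 2 * π / 3) :
    X0 ^ 2 < (cot e + cot a + cot b + cot c) *
      (H true (a + e) + H false (b + e) + H false (c + e)) ∨
    (e = π / 30 ∧ a = 11 * π / 30 ∧ b = 3 * π / 10 ∧ c = 3 * π / 10) := by
  obtain ⟨r, r1, r2, r3⟩ := t6 he he'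
  have k1 := t66 ha ha'
  have k2 := t54 hb hb'
  have k3 := t54 hc hc'
  obtain ⟨x, hx⟩ : ∃ x, x = e - π / 30 := ⟨_, rfl⟩
  obtain ⟨δ, hδ⟩ : ∃ δ, δ = a - 11 * π / 30 := ⟨_, rfl⟩
  obtain ⟨y, hy⟩ : ∃ y, y = b - 3 * π / 10 := ⟨_, rfl⟩
  obtain ⟨z, hz⟩ : ∃ z, z = c - 3 * π / 10 := ⟨_, rfl⟩
  rw [← hx] at r1 r2 r3
  rw [← hδ] at k1
  rw [← hy] at k2
  rw [← hz] at k3
  have p2 := pi_lt_d6
  have p1 := pi_gt_d6
  obtain ⟨-, -, a3, a4, a5, a6⟩ := sq_b
  obtain ⟨x1, x2, -⟩ := X0_b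
  have e0 : x + δ + y + z = 0 := by linarith
  have eS : H true (a + e) + H false (b + e) + H false (c + e) =
      X0 + (c0 ^ 2 - c2 ^ 2) * x + (c1 ^ 2 - c2 ^ 2) * δ := by
    simp only [H, hx, hδ, l5, l6]
    linear_combination ((c0 ^ 2 - c1 ^ 2) / 2) * hs
  have hδ2 : δ < 0.943 := by linarith
  have hW : 1.5 ≤ X0 - 9.6 + (c1 ^ 2 - c2 ^ 2) * δ := by
    rcases le_total δ 0 with h | h
    · linarith [mul_nonneg_of_nonpos_of_nonpos (by linarith : c1 ^ 2 - c2 ^ 2 ≤ 0) h]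
    · linarith [mul_le_mul_of_nonneg_right (by linarith : -0.3297 ≤ c1 ^ 2 - c2 ^ 2) h]
  have h1 := core (X := cot e + cot a + cot b + cot c
      - (3 * x ^ 2 + 0.008 * δ ^ 2 + y ^ 2 / 16 + z ^ 2 / 16)) (Y := X0) (Q := 0.075 * δ ^ 2)
    (l := (c1 ^ 2 - c2 ^ 2) * δ) (W := X0 - 9.6) (by ring) r2 (by linarith) (by
      have : X0 = c0 + c1 + 2 * c2 := rfl
      have : (1 + c2 ^ 2) * (x + δ + y + z) = 0 := by rw [e0, mul_zero]
      linarith) r3 (by
      have n1 : (c1 ^ 2 - c2 ^ 2) ^ 2 ≤ 0.3297 ^ 2 := sq_le_sq' (by linarith) (by linarith)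
      have n2 := mul_le_mul_of_nonneg_right n1 (sq_nonneg δ)
      have n3 := mul_le_mul_of_nonneg_left hW (by positivity : 0 ≤ 0.075 * δ ^ 2)
      rw [mul_pow]
      linarith [sq_nonneg δ])
  rw [eS]
  have hS : 0 < X0 + (c0 ^ 2 - c2 ^ 2) * x + (c1 ^ 2 - c2 ^ 2) * δ := by linarith
  rcases (by positivity : 0 ≤ 3 * x ^ 2 + 0.008 * δ ^ 2 + y ^ 2 / 16 + z ^ 2 / 16).lt_or_eq
    with h | h
  · left
    linarith [mul_pos h hS]
  · right
    have z1 : x = 0 := pow_eq_zero_iff (two_ne_zero) |>.mp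
      (by linarith [sq_nonneg x, sq_nonneg δ, sq_nonneg y, sq_nonneg z])
    have z2 : δ = 0 := pow_eq_zero_iff (two_ne_zero) |>.mp
      (by linarith [sq_nonneg x, sq_nonneg δ, sq_nonneg y, sq_nonneg z])
    have z3 : y = 0 := pow_eq_zero_iff (two_ne_zero) |>.mp
      (by linarith [sq_nonneg x, sq_nonneg δ, sq_nonneg y, sq_nonneg z])
    exact ⟨by linarith, by linarith, by linarith, by linarith⟩

theorem H_ge5 (s : Bool) {θ : ℝ} (h : 6 / 5 ≤ θ) : H true θ ≤ H s θ := by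
  cases s
  · obtain ⟨-, -, -, -, m1, m2, m3, m4⟩ := l_b
    obtain ⟨-, -, a3, a4, a5, a6⟩ := sq_b
    have : 0.3296 * θ ≤ (l6 - l5) * θ :=
      mul_le_mul_of_nonneg_right (by unfold l5 l6; linarith) (by linarith)
    simp only [H]
    linarith [X0_b.2.1]
  · exact le_rfl

theorem H_ge6 (s : Bool) {θ : ℝ} (h0 : 0 ≤ θ) (h : θ ≤ 11 / 10) : H false θ ≤ H s θ := by
  cases s
  · exact le_rfl
  · obtain ⟨-, -, -, -, m1, m2, m3, m4⟩ := l_b
    obtain ⟨-, -, a3, a4, a5, a6⟩ := sq_b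
    have : (l6 - l5) * θ ≤ 0.3297 * θ :=
      mul_le_mul_of_nonneg_right (by unfold l5 l6; linarith) h0
    simp only [H]
    linarith [X0_b.1]

theorem H_ge (s : Bool) {θ : ℝ} (h0 : 0 ≤ θ) : 44.83 * θ - 46.632 ≤ H s θ := by
  obtain ⟨n1, -, n3, -, m1, m2, m3, m4⟩ := l_b
  cases s <;> simp only [H]
  · linarith [mul_le_mul_of_nonneg_right n3.le h0]
  · linarith [mul_le_mul_of_nonneg_right n1.le h0, X0_b.1]

theorem locBig (he : 0 < e) (ha : 0 < a) (hb : 0 < b) (hc : 0 < c) (hs : e + a + b + c = π)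
    (he' : 9 / 25 ≤ e) (hX : 4 ≤ cot e + cot a + cot b + cot c) (s t u : Bool) :
    X0 ^ 2 < (cot e + cot a + cot b + cot c) * (H s (a + e) + H t (b + e) + H u (c + e)) := by
  have h1 : 33 ≤ H s (a + e) + H t (b + e) + H u (c + e) := by
    linarith [H_ge s (add_pos ha he).le, H_ge t (add_pos hb he).le, H_ge u (add_pos hc he).le,
      pi_gt_d6]
  linarith [mul_le_mul hX h1 (by norm_num) (by linarith), X0_b.2.2]

theorem locObt (he : 0 < e) (hb : 0 < b) (hc : 0 < c) (hs : e + a + b + c = π)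
    (he' : e ≤ 9 / 25) (ha' : 2 * π / 3 ≤ a) (s t u : Bool) :
    X0 ^ 2 < (cot e + cot a + cot b + cot c) * (H s (a + e) + H t (b + e) + H u (c + e)) := by
  have p2 := pi_lt_d6
  have p1 := pi_gt_d6
  obtain ⟨w, hw⟩ : ∃ w, w = b + c := ⟨_, rfl⟩
  have w0 : 0 < w := by linarith
  have w1 : w < 1.048 := by linarith
  have hS : 90.3246 * e + (1.331 + 0.3296 * w) ≤ H s (a + e) + H t (b + e) + H u (c + e) := by
    have g1 := H_ge5 s (θ := a + e) (by linarith)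
    have g2 := H_ge6 t (add_pos hb he).le (by linarith)
    have g3 := H_ge6 u (add_pos hc he).le (by linarith)
    obtain ⟨-, -, n3, -, m1, m2, m3, m4⟩ := l_b
    obtain ⟨-, -, a3, a4, a5, a6⟩ := sq_b
    have g4 : 0.3296 * w ≤ (l6 - l5) * w :=
      mul_le_mul_of_nonneg_right (by unfold l5 l6; linarith) w0.le
    have g5 : H true (a + e) + H false (b + e) + H false (c + e) =
        3 / 5 * (l5 * π) - 2 / 3 * (l6 * π) + X0 + (l6 - l5) * w + 2 * (l6 * e) := by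
      simp only [H, hw]; linear_combination l5 * hs
    linarith [mul_le_mul_of_nonneg_right n3.le he.le, X0_b.1]
  have hX : 1 / e + (3 / w - 3 / 8 * w - 0.1224) ≤ cot e + cot a + cot b + cot c := by
    have g1 := cot_ge'' he he'
    have g2 := cot_ge' hb (by linarith)
    have g3 := cot_ge' hc (by linarith)
    have g4 := cot_le (x := π - a) (by linarith) (by linarith)
    rw [cot_pi_sub] at g4
    have g5 : 1 / (π - a) ≤ 1 / w := one_div_le_one_div_of_le w0 (by linarith)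
    have g6 : 4 * (1 / w) ≤ 1 / b + 1 / c := by
      rw [hw, div_add_div _ _ hb.ne' hc.ne', mul_one_div, div_le_div_iff₀ (by positivity)
        (by positivity)]
      nlinarith [sq_nonneg (b - c)]
    have g7 : 3 / w = 3 * (1 / w) := by ring
    linarith
  obtain ⟨Y, hY⟩ : ∃ Y, Y = 3 / w - 3 / 8 * w - 0.1224 := ⟨_, rfl⟩
  obtain ⟨R, hR⟩ : ∃ R, R = 1.331 + 0.3296 * w := ⟨_, rfl⟩
  have R0 : 0 < R := by rw [hR]; positivity
  have hZ : 3.8 ≤ Y * R := by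
    have : Y * R = (3 - 3 / 8 * w ^ 2 - 0.1224 * w) * (1.331 + 0.3296 * w) / w := by
      rw [hY, hR]; field_simp
    rw [this, le_div_iff₀ w0]
    nlinarith [mul_pos w0 (sub_pos.mpr w1), mul_pos (mul_pos w0 w0) (sub_pos.mpr w1)]
  have Y0 : 0 < Y := (pos_iff_pos_of_mul_pos (by linarith : 0 < Y * R)).mpr R0
  rw [← hY] at hX
  rw [← hR] at hS
  have h1 := mul_le_mul hX hS (by positivity) (le_trans (by positivity) hX)
  have h2 : (1 / e + Y) * (90.3246 * e + R) = 90.3246 + Y * R + (R / e + 90.3246 * Y * e) := by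
    field_simp; ring
  have h3 : 37 ≤ R / e + 90.3246 * Y * e := by
    refine (abs_le_of_sq_le_sq' ?_ (by positivity)).2
    have : R / e * (90.3246 * Y * e) = 90.3246 * (Y * R) := by field_simp
    linarith [sq_nonneg (R / e - 90.3246 * Y * e)]
  linarith [X0_b.2.2]

/-- The local inequality. -/
theorem loc (he : 0 < e) (ha : 0 < a) (hb : 0 < b) (hc : 0 < c) (hs : e + a + b + c = π)
    (hX : 4 ≤ cot e + cot a + cot b + cot c) (s t u : Bool) :
    X0 ^ 2 < (cot e + cot a + cot b + cot c) * (H s (a + e) + H t (b + e) + H u (c + e)) ∨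
    (s = true ∧ t = false ∧ u = false ∧
      e = π / 30 ∧ a = 11 * π / 30 ∧ b = 3 * π / 10 ∧ c = 3 * π / 10) ∨
    (s = false ∧ t = true ∧ u = false ∧
      e = π / 30 ∧ b = 11 * π / 30 ∧ c = 3 * π / 10 ∧ a = 3 * π / 10) ∨
    (s = false ∧ t = false ∧ u = true ∧
      e = π / 30 ∧ c = 11 * π / 30 ∧ a = 3 * π / 10 ∧ b = 3 * π / 10) := by
  rcases le_total e (9 / 25) with he' | he'
  swap
  · exact Or.inl (locBig he ha hb hc hs he' hX s t u)
  have hs1 : e + b + c + a = π := by linarith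
  have hs2 : e + c + a + b = π := by linarith
  rcases le_total a (2 * π / 3) with ha' | ha'
  swap
  · exact Or.inl (locObt he hb hc hs he' ha' s t u)
  rcases le_total b (2 * π / 3) with hb' | hb'
  swap
  · exact Or.inl ((locObt he hc ha hs1 he' hb' t u s).trans_eq (by ring))
  rcases le_total c (2 * π / 3) with hc' | hc'
  swap
  · exact Or.inl ((locObt he ha hb hs2 he' hc' u s t).trans_eq (by ring))
  cases s <;> cases t <;> cases u
  · exact Or.inl (loc666 he ha hb hc hs he' ha' hb' hc')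
  · rcases loc566 he hc ha hb hs2 he' hc' ha' hb' with h | h
    · exact Or.inl (h.trans_eq (by ring))
    · exact Or.inr (Or.inr (Or.inr ⟨rfl, rfl, rfl, h⟩))
  · rcases loc566 he hb hc ha hs1 he' hb' hc' ha' with h | h
    · exact Or.inl (h.trans_eq (by ring))
    · exact Or.inr (Or.inr (Or.inl ⟨rfl, rfl, rfl, h⟩))
  · exact Or.inl ((loc556 he hb hc ha hs1 he' hb' hc' ha').trans_eq (by ring))
  · rcases loc566 he ha hb hc hs he' ha' hb' hc' with h | h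
    · exact Or.inl h
    · exact Or.inr (Or.inl ⟨rfl, rfl, rfl, h⟩)
  · exact Or.inl ((loc556 he hc ha hb hs2 he' hc' ha' hb').trans_eq (by ring))
  · exact Or.inl (loc556 he ha hb hc hs he' ha' hb' hc')
  · exact Or.inl (loc555 he ha hb hc hs he' ha' hb' hc')

end

end Pool.Agent.MP_2ab689_gt.T32
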