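import Mathlib.NumberTheory.Zsqrtd.ToReal
import Pool.Agent.MP_2ab689_gt.T32.Glob

/-!
The standard configuration of 32 points.
-/

namespace Pool.Agent.MP_2ab689_gt.T32

open Real Big MeasureTheory Set WithLp

/-- Triples of quadratic integers. -/
abbrev Z3 : Type := ℤ√5 × ℤ√5 × ℤ√5

/-- Unnormalised coordinates. -/
def tab : List Z3 :=
  [(⟨0, 0⟩, ⟨2, 0⟩, ⟨1, 1⟩), (⟨0, 0⟩, ⟨2, 0⟩, ⟨-1, -1⟩), (⟨0, 0⟩, ⟨-2, 0⟩, ⟨1, 1⟩),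
    (⟨0, 0⟩, ⟨-2, 0⟩, ⟨-1, -1⟩), (⟨2, 0⟩, ⟨1, 1⟩, ⟨0, 0⟩), (⟨2, 0⟩, ⟨-1, -1⟩, ⟨0, 0⟩),
    (⟨-2, 0⟩, ⟨1, 1⟩, ⟨0, 0⟩), (⟨-2, 0⟩, ⟨-1, -1⟩, ⟨0, 0⟩), (⟨1, 1⟩, ⟨0, 0⟩, ⟨2, 0⟩),
    (⟨1, 1⟩, ⟨0, 0⟩, ⟨-2, 0⟩), (⟨-1, -1⟩, ⟨0, 0⟩, ⟨2, 0⟩), (⟨-1, -1⟩, ⟨0, 0⟩, ⟨-2, 0⟩),
    (⟨2, 0⟩, ⟨2, 0⟩, ⟨2, 0⟩), (⟨2, 0⟩, ⟨2, 0⟩, ⟨-2, 0⟩), (⟨2, 0⟩, ⟨-2, 0⟩, ⟨2, 0⟩),
    (⟨2, 0⟩, ⟨-2, 0⟩, ⟨-2, 0⟩), (⟨-2, 0⟩, ⟨2, 0⟩, ⟨2, 0⟩), (⟨-2, 0⟩, ⟨2, 0⟩, ⟨-2, 0⟩),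
    (⟨-2, 0⟩, ⟨-2, 0⟩, ⟨2, 0⟩), (⟨-2, 0⟩, ⟨-2, 0⟩, ⟨-2, 0⟩), (⟨0, 0⟩, ⟨1, 1⟩, ⟨-1, 1⟩),
    (⟨0, 0⟩, ⟨1, 1⟩, ⟨1, -1⟩), (⟨0, 0⟩, ⟨-1, -1⟩, ⟨-1, 1⟩), (⟨0, 0⟩, ⟨-1, -1⟩, ⟨1, -1⟩),
    (⟨1, 1⟩, ⟨-1, 1⟩, ⟨0, 0⟩), (⟨1, 1⟩, ⟨1, -1⟩, ⟨0, 0⟩), (⟨-1, -1⟩, ⟨-1, 1⟩, ⟨0, 0⟩),
    (⟨-1, -1⟩, ⟨1, -1⟩, ⟨0, 0⟩), (⟨-1, 1⟩, ⟨0, 0⟩, ⟨1, 1⟩), (⟨-1, 1⟩, ⟨0, 0⟩, ⟨-1, -1⟩),
    (⟨1, -1⟩, ⟨0, 0⟩, ⟨1, 1⟩), (⟨1, -1⟩, ⟨0, 0⟩, ⟨-1, -1⟩)]

/-- The faces. -/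
def fcs : List (Fin 32 × Fin 32 × Fin 32) :=
  [(0, 12, 20), (0, 20, 16), (4, 20, 12), (0, 16, 30), (6, 16, 20), (4, 12, 24), (0, 30, 28),
    (10, 30, 16), (6, 20, 21), (4, 24, 13), (8, 24, 12), (0, 28, 12), (2, 28, 30), (10, 16, 26),
    (4, 21, 20), (6, 21, 17), (4, 13, 21), (9, 13, 24), (8, 12, 28), (2, 30, 18), (6, 26, 16),
    (10, 26, 27), (1, 17, 21), (6, 17, 26), (1, 21, 13), (9, 24, 25), (8, 28, 14), (2, 18, 22),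
    (10, 18, 30), (10, 27, 18), (11, 27, 26), (11, 26, 17), (1, 13, 29), (8, 25, 24), (9, 25, 15),
    (2, 14, 28), (8, 14, 25), (2, 22, 14), (7, 22, 18), (7, 18, 27), (11, 17, 31), (1, 29, 31),
    (9, 29, 13), (5, 15, 25), (9, 15, 29), (5, 25, 14), (5, 14, 22), (7, 27, 19), (1, 31, 17),
    (11, 31, 19), (3, 31, 29), (3, 29, 15), (5, 22, 23), (7, 19, 23), (11, 19, 27), (3, 19, 31),
    (3, 15, 23), (5, 23, 15), (7, 23, 22), (3, 23, 19)]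

/-- The coordinates of a point. -/
def ut (i : Fin 32) : Z3 := tab.getD i (0, 0, 0)

/-- A face. -/
def fc (n : Fin 60) : Fin 32 × Fin 32 × Fin 32 := fcs.getD n (0, 0, 0)

/-- Inner product. -/
def ipZ (a b : Z3) : ℤ√5 := a.1 * b.1 + a.2.1 * b.2.1 + a.2.2 * b.2.2

/-- Determinant. -/
def detZ (a b c : Z3) : ℤ√5 := a.1 * (b.2.1 * c.2.2 - b.2.2 * c.2.1)
  - a.2.1 * (b.1 * c.2.2 - b.2.2 * c.1) + a.2.2 * (b.1 * c.2.1 - b.2.1 * c.1)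

/-- The real value. -/
noncomputable def ev : ℤ√5 →+* ℝ := Zsqrtd.toReal (by norm_num)

theorem ev_eq (x : ℤ√5) : ev x = x.re + x.im * √5 := by simp [ev, Zsqrtd.toReal]

/-- The scale of the icosahedron. -/
noncomputable def al : ℝ := (c2 * (3 + √5))⁻¹

/-- The scale of the dodecahedron. -/
noncomputable def be : ℝ := √3 / 6

/-- The scale of a point. -/
noncomputable def sc (i : Fin 32) : ℝ := if i < 12 then al else be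

/-- The standard configuration. -/
noncomputable def q32 (i : Fin 32) : V :=
  ![sc i * ev (ut i).1, sc i * ev (ut i).2.1, sc i * ev (ut i).2.2]

theorem ip_q (a b : Fin 32) : ip (q32 a) (q32 b) = sc a * sc b * ev (ipZ (ut a) (ut b)) := by
  simp only [ip, q32, ipZ, map_add, map_mul, Matrix.cons_val_zero, Matrix.cons_val_one,
    Matrix.cons_val_two, Matrix.head_cons, Matrix.tail_cons]
  ring

theorem det_q (a b c : Fin 32) : det3 (q32 a) (q32 b) (q32 c) =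
    sc a * sc b * sc c * ev (detZ (ut a) (ut b) (ut c)) := by
  simp only [det3, q32, detZ, map_add, map_mul, map_sub, Matrix.cons_val_zero, Matrix.cons_val_one,
    Matrix.cons_val_two, Matrix.head_cons, Matrix.tail_cons]
  ring

theorem al_eq : al * (c2 * (3 + √5)) = 1 :=
  inv_mul_cancel₀ (mul_pos c2_sq.1 (by positivity)).ne'

theorem al_pos : 0 < al := inv_pos.mpr (mul_pos c2_sq.1 (by positivity))

theorem be_pos : 0 < be := by unfold be; positivity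

theorem al_sq : al ^ 2 * (10 + 2 * √5) = 1 := by
  have : (c2 * (3 + √5)) ^ 2 = 10 + 2 * √5 := by
    rw [mul_pow, c2_sq.2]; linear_combination (-7 - 2 * √5) * s5_sq
  rw [← this, ← mul_pow, al_eq, one_pow]

theorem be_sq : be ^ 2 * 12 = 1 := by unfold be; linear_combination s3_sq / 3

theorem X0_eq : X0 * (3 - √5) = 12 * c2 ∧ (c0 - c1) * (3 - √5) = 4 * √3 := by
  have h : (3 : ℝ) - √5 ≠ 0 := by linarith [s5_b.2]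
  have e : (√3 * c2 - 1) * (√3 * c2 + 1) = (3 - √5) ^ 2 := by
    linear_combination c2 ^ 2 * s3_sq + 3 * c2_sq.2 - s5_sq
  constructor <;> refine mul_right_cancel₀ h ?_
  · unfold X0
    linear_combination (√3 * c2 + 1) * c0_eq + (√3 * c2 - 1) * c1_eq - (c0 + c1) * e
      + 2 * c2 * s3_sq + 2 * c2 * s5_sq
  · linear_combination (√3 * c2 + 1) * c0_eq - (√3 * c2 - 1) * c1_eq - (c0 - c1) * e
      + 2 * √3 * c2_sq.2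

theorem consts : (c0 - c1) / X0 = al * be * (6 + 2 * √5) ∧ 1 - 4 * c2 / X0 = be * be * (4 * √5) ∧
    4 / X0 = al * be * be * 16 := by
  have h : (3 : ℝ) - √5 ≠ 0 := by linarith [s5_b.2]
  have hX : X0 ≠ 0 := by linarith [X0_b.1]
  obtain ⟨e1, e2⟩ := X0_eq
  refine ⟨?_, ?_, ?_⟩
  · rw [div_eq_iff hX]
    refine mul_right_cancel₀ h ?_
    unfold be
    linear_combination e2 - al * √3 / 6 * (6 + 2 * √5) * e1 - 4 * √3 * al_eq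
  · rw [sub_eq_iff_eq_add', ← sub_eq_iff_eq_add, eq_div_iff hX]
    linear_combination e1 / 3 - √5 * X0 / 3 * be_sq
  · rw [div_eq_iff hX]
    linear_combination (-4) * al_eq - 4 / 3 * al * X0 * be_sq - al * (3 + √5) / 3 * e1
      - al * X0 / 3 * s5_sq

theorem tab_unit : ∀ i : Fin 32, ipZ (ut i) (ut i) = if i < 12 then ⟨10, 2⟩ else ⟨12, 0⟩ := by
  decide +kernel

theorem unit32 (i : Fin 32) : ip (q32 i) (q32 i) = 1 := by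
  rw [ip_q, tab_unit, sc]
  split_ifs <;> rw [ev_eq] <;> push_cast
  · linear_combination al_sq
  · linear_combination be_sq

theorem tab_face : ∀ n : Fin 60, (fc n).1 < 12 ∧ ¬(fc n).2.1 < 12 ∧ ¬(fc n).2.2 < 12 ∧
    (fc n).2.1 ≠ (fc n).2.2 ∧
    ipZ (ut (fc n).1) (ut (fc n).2.1) = ⟨6, 2⟩ ∧ ipZ (ut (fc n).2.1) (ut (fc n).2.2) = ⟨0, 4⟩ ∧
    ipZ (ut (fc n).2.2) (ut (fc n).1) = ⟨6, 2⟩ ∧
    detZ (ut (fc n).1) (ut (fc n).2.1) (ut (fc n).2.2) = ⟨16, 0⟩ := by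
  decide +kernel

theorem shape32 (n : Fin 60) : Shape (q32 (fc n).1) (q32 (fc n).2.1) (q32 (fc n).2.2) := by
  obtain ⟨h1, h2, h3, -, h4, h5, h6, h7⟩ := tab_face n
  obtain ⟨k1, k2, k3⟩ := consts
  simp only [Shape, ip_q, det_q, sc, h1, h2, h3, h4, h5, h6, h7, if_true, if_false, ev_eq, k1, k2,
    k3]
  push_cast
  exact ⟨by ring, by ring, by ring, by ring⟩

/-- The sign test. -/
def chk (U W : ℤ√5) : Prop :=
  |U.re| + |U.im| + |W.re| + |W.im| < 2887 * U.re + 6455 * U.im + 2629 * W.re + 5878 * W.im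

instance (U W : ℤ√5) : Decidable (chk U W) := Int.decLt _ _

theorem chk_sound {U W : ℤ√5} (h : chk U W) : 0 < be * ev U + al * ev W := by
  have key : ∀ (n : ℤ) (x y : ℝ), |x - y| ≤ 1 → y * n - |(n : ℝ)| ≤ x * n := by
    intro n x y k
    have := mul_le_mul_of_nonneg_right k (abs_nonneg (n : ℝ))
    rw [← abs_mul] at this
    linarith [neg_abs_le ((x - y) * n)]
  obtain ⟨a1, a2⟩ := s3_b
  obtain ⟨b1, b2⟩ := s5_b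
  have a3 : 0.26286 < al := lt_of_pow_lt_pow_left₀ 2 al_pos.le (by nlinarith [al_sq])
  have a4 : al < 0.26287 := lt_of_pow_lt_pow_left₀ 2 (by norm_num) (by nlinarith [al_sq])
  have a5 : 0.28867 < be := by unfold be; linarith
  have a6 : be < 0.28868 := by unfold be; linarith
  have k1 := key U.re (10000 * be) 2887 (abs_le.mpr ⟨by linarith, by linarith⟩)
  have k2 := key U.im (10000 * (be * √5)) 6455 (abs_le.mpr ⟨by nlinarith, by nlinarith⟩)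
  have k3 := key W.re (10000 * al) 2629 (abs_le.mpr ⟨by linarith, by linarith⟩)
  have k4 := key W.im (10000 * (al * √5)) 5878 (abs_le.mpr ⟨by nlinarith, by nlinarith⟩)
  have h' : (|(U.re : ℝ)| + |(U.im : ℝ)| + |(W.re : ℝ)| + |(W.im : ℝ)| <
      2887 * U.re + 6455 * U.im + 2629 * W.re + 5878 * W.im) := by exact_mod_cast h
  rw [ev_eq, ev_eq]
  linarith

theorem tab_conv : ∀ (n : Fin 60) (l : Fin 32), l ≠ (fc n).1 → l ≠ (fc n).2.1 → l ≠ (fc n).2.2 →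
    if l < 12 then chk (⟨16, 0⟩ - detZ (ut l) (ut (fc n).2.1) (ut (fc n).2.2))
      (-(detZ (ut (fc n).1) (ut l) (ut (fc n).2.2) + detZ (ut (fc n).1) (ut (fc n).2.1) (ut l)))
    else chk (-detZ (ut l) (ut (fc n).2.1) (ut (fc n).2.2)) (⟨16, 0⟩ -
      (detZ (ut (fc n).1) (ut l) (ut (fc n).2.2) + detZ (ut (fc n).1) (ut (fc n).2.1) (ut l))) := by
  decide +kernel

theorem face32 (n : Fin 60) : Face (posq q32) (fc n).1 (fc n).2.1 (fc n).2.2 := by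
  obtain ⟨h1, h2, h3, h4, -, -, -, h7⟩ := tab_face n
  refine ⟨fun e => h2 (e ▸ h1), h4, fun e => h3 (e ▸ h1), fun l l1 l2 l3 => ?_⟩
  have h := tab_conv n l l1 l2 l3
  rw [posq, T4_eq, det_q, det_q, det_q, det_q, h7]
  simp only [sc, h1, h2, h3, if_true, if_false]
  split_ifs at h ⊢
  · have := mul_pos (mul_pos al_pos be_pos) (chk_sound h)
    rw [map_sub, map_neg, map_add] at this
    linarith
  · have := mul_pos (mul_pos be_pos be_pos) (chk_sound h)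
    rw [map_sub, map_neg, map_add] at this
    linarith

end Pool.Agent.MP_2ab689_gt.T32
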